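import Pool.Agent.RZ30.Field

/-!
# Counting representations by lifted parabolas

`LL i j X Y`: pairs (point of the parabola `i`, digits in `D i`), (point of the parabola `j`, digits in
`D j`) whose lifted coordinates add up to `X` and `Y`.
-/

namespace Pool.Agent.RZ30

open Finset

/-- number of pairs of digit vectors whose sum plus the carry `c` is `g` -/
def rr (D : Fin 3 → Finset (ℕ × ℕ)) (i j : Fin 3) (c g : ℕ × ℕ) : ℕ :=
  ((D i ×ˢ D j).filter fun q => q.1.1 + q.2.1 + c.1 = g.1 ∧ q.1.2 + q.2.2 + c.2 = g.2).card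

/-- maximum over the four carries -/
def MM (D : Fin 3 → Finset (ℕ × ℕ)) (i j : Fin 3) (g : ℕ × ℕ) : ℕ :=
  max (max (rr D i j (0, 0) g) (rr D i j (0, 1) g)) (max (rr D i j (1, 0) g) (rr D i j (1, 1) g))

/-- bound for the number of representations in one lift -/
def cost (D : Fin 3 → Finset (ℕ × ℕ)) (g : ℕ × ℕ) : ℕ :=
  2 * MM D 0 0 g + 2 * MM D 2 2 g + 4 * MM D 0 1 g + 4 * MM D 1 2 g +
    max (2 * MM D 1 1 g) (4 * MM D 0 2 g)

theorem rr_le_MM (D : Fin 3 → Finset (ℕ × ℕ)) (i j : Fin 3) (g : ℕ × ℕ) {c : ℕ × ℕ}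
    (h1 : c.1 < 2) (h2 : c.2 < 2) : rr D i j c g ≤ MM D i j g := by
  obtain ⟨c1, c2⟩ := c
  have h1' : c1 = 0 ∨ c1 = 1 := by
    have : c1 < 2 := h1
    omega
  have h2' : c2 = 0 ∨ c2 = 1 := by
    have : c2 < 2 := h2
    omega
  unfold MM
  rcases h1' with rfl | rfl <;> rcases h2' with rfl | rfl
  · exact (le_max_left _ _).trans (le_max_left _ _)
  · exact (le_max_right _ _).trans (le_max_left _ _)
  · exact (le_max_left _ _).trans (le_max_right _ _)
  · exact (le_max_right _ _).trans (le_max_right _ _)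

section

variable {p : ℕ} [Fact p.Prime]

/-- second coordinate of the point `x` of the parabola `i` -/
def yv (K : Fin 3 → ZMod p) (i : Fin 3) (x : ZMod p) : ℕ := (K i * x ^ 2).val

/-- pairs -/
abbrev QQ (p : ℕ) : Type := (ZMod p × ℕ × ℕ) × (ZMod p × ℕ × ℕ)

/-- first coordinate of the sum -/
def vX (q : QQ p) : ℕ := q.1.1.val + q.2.1.val + p * (q.1.2.1 + q.2.2.1)

/-- second coordinate of the sum -/
def vY (K : Fin 3 → ZMod p) (i j : Fin 3) (q : QQ p) : ℕ :=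
  yv K i q.1.1 + yv K j q.2.1 + p * (q.1.2.2 + q.2.2.2)

/-- all pairs of elements of type `i` and `j` -/
def BB (p : ℕ) [Fact p.Prime] (D : Fin 3 → Finset (ℕ × ℕ)) (i j : Fin 3) : Finset (QQ p) :=
  ((univ : Finset (ZMod p)) ×ˢ D i) ×ˢ ((univ : Finset (ZMod p)) ×ˢ D j)

theorem mem_BB {D : Fin 3 → Finset (ℕ × ℕ)} {i j : Fin 3} {q : QQ p} :
    q ∈ BB p D i j ↔ q.1.2 ∈ D i ∧ q.2.2 ∈ D j := by
  unfold BB
  rw [mem_product, mem_product, mem_product]
  simp

/-- pairs with sum `(X, Y)` -/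
def LL (K : Fin 3 → ZMod p) (D : Fin 3 → Finset (ℕ × ℕ)) (i j : Fin 3) (X Y : ℕ) :
    Finset (QQ p) :=
  (BB p D i j).filter fun q => vX q = X ∧ vY K i j q = Y

theorem cast_vX (q : QQ p) : ((vX q : ℕ) : ZMod p) = q.1.1 + q.2.1 := by
  unfold vX
  push_cast
  rw [ZMod.natCast_self, zero_mul, add_zero, ZMod.natCast_zmod_val, ZMod.natCast_zmod_val]

theorem cast_vY (K : Fin 3 → ZMod p) (i j : Fin 3) (q : QQ p) :
    ((vY K i j q : ℕ) : ZMod p) = K i * q.1.1 ^ 2 + K j * q.2.1 ^ 2 := by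
  unfold vY yv
  push_cast
  rw [ZMod.natCast_self, zero_mul, add_zero, ZMod.natCast_zmod_val, ZMod.natCast_zmod_val]

/-- division of `r + s + p d` by `p` -/
theorem div_carry {p r s d : ℕ} (hp : 0 < p) : (r + s + p * d) / p = d + (r + s) / p := by
  rw [Nat.add_mul_div_left _ _ hp, add_comm]

theorem carry_lt {p r s : ℕ} (hr : r < p) (hs : s < p) : (r + s) / p < 2 := by
  rw [Nat.div_lt_iff_lt_mul (by omega)]
  omega

theorem card_LL_le (K : Fin 3 → ZMod p) (D : Fin 3 → Finset (ℕ × ℕ)) (i j : Fin 3) (X Y : ℕ) :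
    (LL K D i j X Y).card ≤ (sols K i j (X : ZMod p) (Y : ZMod p)).card * MM D i j (X / p, Y / p) := by
  classical
  have hp0 : 0 < p := (Fact.out : p.Prime).pos
  rw [mul_comm]
  refine Finset.card_le_mul_card_image_of_maps_to (f := fun q : QQ p => q.1.1) ?_ _ ?_
  · intro q hq
    obtain ⟨-, hX, hY⟩ := mem_filter.1 hq
    unfold sols
    rw [mem_filter]
    refine ⟨mem_univ _, ?_⟩
    have h1 : (X : ZMod p) - q.1.1 = q.2.1 := by
      rw [← hX, cast_vX]
      ring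
    rw [h1, ← hY, cast_vY]
  · intro x _
    set x' : ZMod p := (X : ZMod p) - x with hx'
    have hc1 : (x.val + x'.val) / p < 2 := carry_lt (ZMod.val_lt x) (ZMod.val_lt x')
    have hc2 : (yv K i x + yv K j x') / p < 2 := carry_lt (ZMod.val_lt _) (ZMod.val_lt _)
    refine le_trans ?_ (rr_le_MM D i j (X / p, Y / p)
      (c := ((x.val + x'.val) / p, (yv K i x + yv K j x') / p)) hc1 hc2)
    unfold rr
    have key : ∀ q ∈ (LL K D i j X Y).filter (fun q : QQ p => q.1.1 = x),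
        q.1.2 ∈ D i ∧ q.2.2 ∈ D j ∧ q.1.1 = x ∧ q.2.1 = x' ∧ vX q = X ∧ vY K i j q = Y := by
      intro q hq
      obtain ⟨hq1, hqx⟩ := mem_filter.1 hq
      obtain ⟨hqB, hX, hY⟩ := mem_filter.1 hq1
      obtain ⟨h1, h2⟩ := mem_BB.1 hqB
      refine ⟨h1, h2, hqx, ?_, hX, hY⟩
      rw [hx', ← hX, cast_vX, hqx]
      ring
    refine Finset.card_le_card_of_injOn (fun q : QQ p => (q.1.2, q.2.2)) ?_ ?_
    · intro q hq
      obtain ⟨h1, h2, h3, h4, h5, h6⟩ := key q (Finset.mem_coe.1 hq)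
      rw [Finset.mem_coe, mem_filter, mem_product]
      refine ⟨⟨h1, h2⟩, ?_, ?_⟩
      · change q.1.2.1 + q.2.2.1 + (x.val + x'.val) / p = X / p
        rw [← h5, vX, h3, h4, div_carry hp0]
      · change q.1.2.2 + q.2.2.2 + (yv K i x + yv K j x') / p = Y / p
        rw [← h6, vY, h3, h4, div_carry hp0]
    · intro q hq q' hq' h
      obtain ⟨-, -, h3, h4, -, -⟩ := key q (Finset.mem_coe.1 hq)
      obtain ⟨-, -, h3', h4', -, -⟩ := key q' (Finset.mem_coe.1 hq')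
      have h5 := Prod.mk.inj h
      exact Prod.ext (Prod.ext (h3.trans h3'.symm) h5.1) (Prod.ext (h4.trans h4'.symm) h5.2)

theorem card_LL_swap (K : Fin 3 → ZMod p) (D : Fin 3 → Finset (ℕ × ℕ)) (i j : Fin 3) (X Y : ℕ) :
    (LL K D i j X Y).card = (LL K D j i X Y).card := by
  refine Finset.card_bij (fun q _ => Prod.swap q) ?_ ?_ ?_
  · intro q hq
    obtain ⟨hqB, hX, hY⟩ := mem_filter.1 hq
    obtain ⟨h1, h2⟩ := mem_BB.1 hqB
    refine mem_filter.2 ⟨mem_BB.2 ⟨h2, h1⟩, ?_, ?_⟩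
    · rw [← hX]
      unfold vX
      change q.2.1.val + q.1.1.val + p * (q.2.2.1 + q.1.2.1) = _
      ring
    · rw [← hY]
      unfold vY
      change yv K j q.2.1 + yv K i q.1.1 + p * (q.2.2.2 + q.1.2.2) = _
      ring
  · intro q _ q' _ h
    exact Prod.swap_injective h
  · intro q hq
    obtain ⟨hqB, hX, hY⟩ := mem_filter.1 hq
    obtain ⟨h1, h2⟩ := mem_BB.1 hqB
    refine ⟨Prod.swap q, mem_filter.2 ⟨mem_BB.2 ⟨h2, h1⟩, ?_, ?_⟩, Prod.swap_swap q⟩
    · rw [← hX]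
      unfold vX
      change q.2.1.val + q.1.1.val + p * (q.2.2.1 + q.1.2.1) = _
      ring
    · rw [← hY]
      unfold vY
      change yv K i q.2.1 + yv K j q.1.1 + p * (q.2.2.2 + q.1.2.2) = _
      ring

/-- all representations of one lift -/
theorem sum_LL_le {K : Fin 3 → ZMod p} (hK : Good K) (D : Fin 3 → Finset (ℕ × ℕ)) (X Y : ℕ) :
    ∑ i, ∑ j, (LL K D i j X Y).card ≤ cost D (X / p, Y / p) := by
  have h2 : ∀ i j, (LL K D i j X Y).card ≤ 2 * MM D i j (X / p, Y / p) := fun i j =>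
    (card_LL_le K D i j X Y).trans (Nat.mul_le_mul_right _ (hK.two i j _ _))
  have h00 := h2 0 0
  have h22 := h2 2 2
  have h01 := h2 0 1
  have h12 := h2 1 2
  have h11 := card_LL_le K D 1 1 X Y
  have h02 := card_LL_le K D 0 2 X Y
  have hs := hK.sum (X : ZMod p) (Y : ZMod p)
  have e10 := card_LL_swap K D 1 0 X Y
  have e21 := card_LL_swap K D 2 1 X Y
  have e20 := card_LL_swap K D 2 0 X Y
  unfold cost
  rw [Fin.sum_univ_three, Fin.sum_univ_three, Fin.sum_univ_three, Fin.sum_univ_three]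
  rw [e10, e21, e20]
  generalize (sols K 1 1 (X : ZMod p) (Y : ZMod p)).card = s1 at h11 hs
  generalize (sols K 0 2 (X : ZMod p) (Y : ZMod p)).card = s2 at h02 hs
  generalize (X / p, Y / p) = g at *
  have hmax : (LL K D 1 1 X Y).card + 2 * (LL K D 0 2 X Y).card ≤
      max (2 * MM D 1 1 g) (4 * MM D 0 2 g) := by
    have hA := le_max_left (2 * MM D 1 1 g) (4 * MM D 0 2 g)
    have hB := le_max_right (2 * MM D 1 1 g) (4 * MM D 0 2 g)
    have hc : (s1 = 0 ∧ s2 = 2) ∨ (s1 = 1 ∧ s2 = 1) ∨ (s1 = 2 ∧ s2 = 0) := by omega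
    rcases hc with ⟨rfl, rfl⟩ | ⟨rfl, rfl⟩ | ⟨rfl, rfl⟩ <;> omega
  omega

end

end Pool.Agent.RZ30
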