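import Mathlib

/-!
# Three parabolas over a prime field

For a non-square `t` the numbers of solutions of `k1 x^2 + k1 (u - x)^2 = v` and of
`k0 x^2 + k2 (u - x)^2 = v` for `k0 = 1`, `k2 = t`, `k1 = 2 t / (1 + t)` always add up to two.
-/

namespace Pool.Agent.RZ30

open Finset

section

variable {p : ℕ} [Fact p.Prime]

/-- solutions of `K i x^2 + K j (u - x)^2 = v` -/
def sols (K : Fin 3 → ZMod p) (i j : Fin 3) (u v : ZMod p) : Finset (ZMod p) :=
  univ.filter fun x => K i * x ^ 2 + K j * (u - x) ^ 2 = v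

/-- number of roots of a quadratic polynomial -/
theorem quad_card (hp : p ≠ 2) {a b c : ZMod p} (ha : a ≠ 0) :
    (((univ : Finset (ZMod p)).filter fun x => a * x ^ 2 + b * x + c = 0).card : ℤ) =
      quadraticChar (ZMod p) (b ^ 2 - 4 * a * c) + 1 := by
  have hchar : ringChar (ZMod p) ≠ 2 := by rwa [ZMod.ringChar_zmod_n]
  have h2 : (2 : ZMod p) ≠ 0 := Ring.two_ne_zero hchar
  rw [← quadraticChar_card_sqrts hchar]
  congr 1
  refine Finset.card_bij (fun x _ => 2 * a * x + b) ?_ ?_ ?_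
  · intro x hx
    rw [mem_filter] at hx
    rw [Set.mem_toFinset]
    change (2 * a * x + b) ^ 2 = b ^ 2 - 4 * a * c
    have h3 : (2 * a * x + b) ^ 2 = b ^ 2 - 4 * a * c + 4 * a * (a * x ^ 2 + b * x + c) := by ring
    rw [h3, hx.2]
    ring
  · intro x _ y _ h
    have h3 : 2 * a * x = 2 * a * y := add_right_cancel h
    exact mul_left_cancel₀ (mul_ne_zero h2 ha) h3
  · intro y hy
    rw [Set.mem_toFinset] at hy
    have hy' : y ^ 2 = b ^ 2 - 4 * a * c := hy
    have h2a : 2 * a ≠ 0 := mul_ne_zero h2 ha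
    refine ⟨(y - b) / (2 * a), ?_, ?_⟩
    · rw [mem_filter]
      refine ⟨mem_univ _, ?_⟩
      have h4 : (4 * a) * (a * ((y - b) / (2 * a)) ^ 2 + b * ((y - b) / (2 * a)) + c) =
          y ^ 2 - (b ^ 2 - 4 * a * c) := by
        field_simp
        ring
      rw [hy', sub_self] at h4
      have h4a : 4 * a ≠ 0 := by
        have : (4 : ZMod p) = 2 * 2 := by norm_num
        rw [this]
        exact mul_ne_zero (mul_ne_zero h2 h2) ha
      exact (mul_eq_zero.1 h4).resolve_left h4a
    · field_simp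
      ring

theorem quad_card_le (hp : p ≠ 2) {a b c : ZMod p} (ha : a ≠ 0) :
    ((univ : Finset (ZMod p)).filter fun x => a * x ^ 2 + b * x + c = 0).card ≤ 2 := by
  have h1 := quad_card hp (b := b) (c := c) ha
  have h2 : quadraticChar (ZMod p) (b ^ 2 - 4 * a * c) ≤ 1 := by
    rcases quadraticChar_isQuadratic (ZMod p) (b ^ 2 - 4 * a * c) with h | h | h <;> rw [h] <;>
      norm_num
  omega

theorem sols_eq (K : Fin 3 → ZMod p) (i j : Fin 3) (u v : ZMod p) :
    sols K i j u v = univ.filter fun x =>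
      (K i + K j) * x ^ 2 + (-(2 * K j * u)) * x + (K j * u ^ 2 - v) = 0 := by
  unfold sols
  refine Finset.filter_congr fun x _ => ?_
  have h1 : (K i + K j) * x ^ 2 + (-(2 * K j * u)) * x + (K j * u ^ 2 - v) =
      K i * x ^ 2 + K j * (u - x) ^ 2 - v := by ring
  rw [h1, sub_eq_zero]

/-- what is needed of the coefficients -/
structure Good (K : Fin 3 → ZMod p) : Prop where
  two : ∀ i j u v, (sols K i j u v).card ≤ 2
  sum : ∀ u v, (sols K 1 1 u v).card + (sols K 0 2 u v).card = 2

theorem exists_good (hp : 11 ≤ p) : ∃ K : Fin 3 → ZMod p, Good K := by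
  classical
  have hp2 : p ≠ 2 := by omega
  have hchar : ringChar (ZMod p) ≠ 2 := by rwa [ZMod.ringChar_zmod_n]
  have h2 : (2 : ZMod p) ≠ 0 := Ring.two_ne_zero hchar
  have h3 : (3 : ZMod p) ≠ 0 := by
    intro h
    have h' : ((3 : ℕ) : ZMod p) = 0 := by exact_mod_cast h
    rw [ZMod.natCast_eq_zero_iff] at h'
    have := Nat.le_of_dvd (by norm_num) h'
    omega
  obtain ⟨a, ha⟩ := FiniteField.exists_nonsquare hchar
  have ha0 : a ≠ 0 := by
    rintro rfl
    exact ha (IsSquare.zero)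
  -- a good multiple of `a` by a square
  obtain ⟨s, hs⟩ : ∃ s : ZMod p, s ∉ (({0} : Finset (ZMod p)) ∪
      (univ.filter fun x => a * x ^ 2 + 0 * x + 1 = 0)) ∪
      ((univ.filter fun x => a * x ^ 2 + 0 * x + 3 = 0) ∪
      (univ.filter fun x => 3 * a * x ^ 2 + 0 * x + 1 = 0)) := by
    by_contra hcon
    push Not at hcon
    have h4 : (univ : Finset (ZMod p)) ⊆ (({0} : Finset (ZMod p)) ∪
      (univ.filter fun x => a * x ^ 2 + 0 * x + 1 = 0)) ∪
      ((univ.filter fun x => a * x ^ 2 + 0 * x + 3 = 0) ∪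
      (univ.filter fun x => 3 * a * x ^ 2 + 0 * x + 1 = 0)) := fun x _ => hcon x
    have h5 := Finset.card_le_card h4
    rw [Finset.card_univ, ZMod.card] at h5
    have h6 := Finset.card_union_le (({0} : Finset (ZMod p)) ∪
      (univ.filter fun x => a * x ^ 2 + 0 * x + 1 = 0))
      ((univ.filter fun x => a * x ^ 2 + 0 * x + 3 = 0) ∪
      (univ.filter fun x => 3 * a * x ^ 2 + 0 * x + 1 = 0))
    have h7 := Finset.card_union_le ({0} : Finset (ZMod p))
      (univ.filter fun x => a * x ^ 2 + 0 * x + 1 = 0)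
    have h8 := Finset.card_union_le (univ.filter fun x => a * x ^ 2 + 0 * x + 3 = 0)
      (univ.filter fun x => 3 * a * x ^ 2 + 0 * x + 1 = 0)
    have h9 := quad_card_le hp2 (a := a) (b := 0) (c := 1) ha0
    have h10 := quad_card_le hp2 (a := a) (b := 0) (c := 3) ha0
    have h11 := quad_card_le hp2 (a := 3 * a) (b := 0) (c := 1) (mul_ne_zero h3 ha0)
    rw [Finset.card_singleton] at h7
    omega
  simp only [mem_union, mem_singleton, mem_filter, mem_univ, true_and, not_or] at hs
  obtain ⟨⟨hs0, hs1⟩, hs2, hs3⟩ := hs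
  set t : ZMod p := a * s ^ 2 with ht
  have ht0 : t ≠ 0 := mul_ne_zero ha0 (pow_ne_zero 2 hs0)
  have ht1 : 1 + t ≠ 0 := by
    intro h
    apply hs1
    linear_combination h
  have ht3 : t + 3 ≠ 0 := by
    intro h
    apply hs2
    linear_combination h
  have ht13 : 3 * t + 1 ≠ 0 := by
    intro h
    apply hs3
    rw [ht] at h
    linear_combination h
  have htsq : ¬ IsSquare t := by
    rintro ⟨r, hr⟩
    apply ha
    refine ⟨r / s, ?_⟩
    have h4 : a * s ^ 2 = r * r := by rw [← ht, hr]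
    field_simp
    rw [h4]
    ring
  let k : ZMod p := 2 * t / (1 + t)
  have hk : k * (1 + t) = 2 * t := by
    change 2 * t / (1 + t) * (1 + t) = 2 * t
    field_simp
  have hk0 : k ≠ 0 := by
    intro h
    rw [h, zero_mul] at hk
    exact mul_ne_zero h2 ht0 hk.symm
  let K : Fin 3 → ZMod p := ![1, k, t]
  have hne : ∀ i j, K i + K j ≠ 0 := by
    have e00 : (1 : ZMod p) + 1 ≠ 0 := by
      have : (1 : ZMod p) + 1 = 2 := by norm_num
      rw [this]
      exact h2
    have e01 : (1 : ZMod p) + k ≠ 0 := by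
      intro h
      apply ht13
      have h4 : (1 + k) * (1 + t) = 3 * t + 1 := by
        rw [add_mul, hk]
        ring
      rw [← h4, h, zero_mul]
    have e12 : k + t ≠ 0 := by
      intro h
      have h4 : (k + t) * (1 + t) = t * (t + 3) := by
        rw [add_mul, hk]
        ring
      rw [h, zero_mul] at h4
      exact mul_ne_zero ht0 ht3 h4.symm
    have e11 : k + k ≠ 0 := by
      rw [← two_mul]
      exact mul_ne_zero h2 hk0
    have e22 : t + t ≠ 0 := by
      rw [← two_mul]
      exact mul_ne_zero h2 ht0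
    intro i j
    fin_cases i <;> fin_cases j
    · exact e00
    · exact e01
    · exact ht1
    · change k + 1 ≠ 0
      rw [add_comm]
      exact e01
    · exact e11
    · exact e12
    · change t + 1 ≠ 0
      rw [add_comm]
      exact ht1
    · change t + k ≠ 0
      rw [add_comm]
      exact e12
    · exact e22
  refine ⟨K, ?_, ?_⟩
  · intro i j u v
    rw [sols_eq]
    exact quad_card_le hp2 (hne i j)
  · intro u v
    have h4 := quad_card hp2 (b := -(2 * K 1 * u)) (c := K 1 * u ^ 2 - v) (hne 1 1)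
    have h5 := quad_card hp2 (b := -(2 * K 2 * u)) (c := K 2 * u ^ 2 - v) (hne 0 2)
    rw [← sols_eq] at h4 h5
    have h6 : (-(2 * K 1 * u)) ^ 2 - 4 * (K 1 + K 1) * (K 1 * u ^ 2 - v) =
        t * (2 / (1 + t)) ^ 2 * ((-(2 * K 2 * u)) ^ 2 - 4 * (K 0 + K 2) * (K 2 * u ^ 2 - v)) := by
      change (-(2 * (2 * t / (1 + t)) * u)) ^ 2 - 4 * ((2 * t / (1 + t)) + (2 * t / (1 + t))) *
        ((2 * t / (1 + t)) * u ^ 2 - v) =
        t * (2 / (1 + t)) ^ 2 * ((-(2 * t * u)) ^ 2 - 4 * (1 + t) * (t * u ^ 2 - v))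
      field_simp
      ring
    have h7 : quadraticChar (ZMod p) t = -1 := quadraticChar_neg_one_iff_not_isSquare.2 htsq
    have h8 : quadraticChar (ZMod p) ((2 / (1 + t)) ^ 2) = 1 :=
      quadraticChar_sq_one' (div_ne_zero h2 ht1)
    rw [h6, map_mul, map_mul, h7, h8] at h4
    omega

end

end Pool.Agent.RZ30
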