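import Pool.Agent.RZ30.Upper

/-!
# The digit sets

The window is `6 × 8`, the box is `8 × 10`, the bound is `86`.
-/

set_option maxRecDepth 100000

namespace Pool.Agent.RZ30

open Finset

/-- the digit sets as lists -/
def Dl (i : Fin 3) : List (ℕ × ℕ) :=
  ![[(1, 4), (2, 4), (3, 4), (4, 4), (5, 4), (6, 4), (7, 4)],
    [(0, 3), (0, 4), (0, 5), (1, 2), (1, 6), (2, 2), (2, 6), (3, 2), (3, 4), (3, 6), (4, 2), (4, 3),
      (4, 5), (4, 6)],
    [(1, 0), (1, 1), (1, 2), (1, 3), (1, 4), (1, 5), (1, 6), (1, 7), (1, 8)]] i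

/-- the digit sets as numbers -/
def Dm (i : Fin 3) : ℕ :=
  ![431359146774843864504243159816425686112778596757684746149230303772672,
    36750495634116519706497040557792965951544, 2194728288256] i

/-- the digit sets -/
def DD (i : Fin 3) : Finset (ℕ × ℕ) := (Dl i).toFinset

theorem Dl_nodup (i : Fin 3) : (Dl i).Nodup := by
  revert i
  decide

theorem Dl_lt (i : Fin 3) : ∀ d ∈ Dl i, d.1 < 8 ∧ d.2 < 9 := by
  revert i
  decide

theorem Dm_lt (i : Fin 3) : Dm i < 2 ^ 256 := by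
  revert i
  decide +kernel

theorem mem_Dl_aux : ∀ i : Fin 3, ∀ x < 8, ∀ y < 32,
    decide ((x, y) ∈ Dl i) = (Dm i).testBit (32 * x + y) := by
  decide +kernel

theorem mem_Dl (i : Fin 3) (x y : ℕ) (hy : y < 32) :
    (x, y) ∈ Dl i ↔ (Dm i).testBit (32 * x + y) = true := by
  rcases Nat.lt_or_ge x 8 with hx | hx
  · rw [← mem_Dl_aux i x hx y hy, decide_eq_true_eq]
  · constructor
    · intro h
      have := (Dl_lt i _ h).1
      simp only at this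
      omega
    · intro h
      exfalso
      have h1 : (Dm i).testBit (32 * x + y) = false := by
        apply Nat.testBit_lt_two_pow
        refine (Dm_lt i).trans_le (Nat.pow_le_pow_right (by norm_num) (by omega))
      rw [h1] at h
      exact Bool.false_ne_true h

/-- number of representations -/
def cnt (i j : Fin 3) (x y : ℕ) : ℕ :=
  ((Dl i).filter fun d => decide (d.1 ≤ x) && decide (d.2 ≤ y) &&
    (Dm j).testBit (32 * (x - d.1) + (y - d.2))).length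

/-- number of representations, with carry -/
def cn (i j : Fin 3) (c1 c2 x y : ℕ) : ℕ := if c1 ≤ x ∧ c2 ≤ y then cnt i j (x - c1) (y - c2) else 0

theorem rr_eq (i j : Fin 3) (c g : ℕ × ℕ) (hg : g.2 < 32) :
    rr DD i j c g = cn i j c.1 c.2 g.1 g.2 := by
  obtain ⟨c1, c2⟩ := c
  obtain ⟨x, y⟩ := g
  unfold cn rr
  simp only at hg ⊢
  split_ifs with h
  · have hcnt : cnt i j (x - c1) (y - c2) = ((DD i).filter fun d => d.1 ≤ x - c1 ∧ d.2 ≤ y - c2 ∧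
        (x - c1 - d.1, y - c2 - d.2) ∈ DD j).card := by
      unfold cnt DD
      rw [← List.toFinset_card_of_nodup ((Dl_nodup i).filter _), List.toFinset_filter]
      congr 1
      apply Finset.filter_congr
      intro d _
      rw [List.mem_toFinset, mem_Dl j _ _ (by omega)]
      simp only [Bool.and_eq_true, decide_eq_true_eq, and_assoc]
    rw [hcnt]
    refine Finset.card_bij' (fun q _ => q.1) (fun d _ => (d, (x - c1 - d.1, y - c2 - d.2)))
      ?_ ?_ ?_ ?_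
    · rintro ⟨⟨a1, a2⟩, ⟨b1, b2⟩⟩ hq
      simp only [mem_filter, mem_product] at hq ⊢
      obtain ⟨⟨ha, hb⟩, e1, e2⟩ := hq
      refine ⟨ha, by omega, by omega, ?_⟩
      have f1 : x - c1 - a1 = b1 := by omega
      have f2 : y - c2 - a2 = b2 := by omega
      rw [f1, f2]
      exact hb
    · rintro ⟨a1, a2⟩ hq
      simp only [mem_filter, mem_product] at hq ⊢
      obtain ⟨ha, h1, h2, h3⟩ := hq
      exact ⟨⟨ha, h3⟩, by omega, by omega⟩
    · rintro ⟨⟨a1, a2⟩, ⟨b1, b2⟩⟩ hq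
      simp only [mem_filter, mem_product] at hq ⊢
      obtain ⟨⟨ha, hb⟩, e1, e2⟩ := hq
      have f1 : x - c1 - a1 = b1 := by omega
      have f2 : y - c2 - a2 = b2 := by omega
      rw [f1, f2]
    · rintro ⟨a1, a2⟩ hq
      rfl
  · rw [Finset.card_eq_zero, Finset.filter_eq_empty_iff]
    rintro ⟨⟨a1, a2⟩, ⟨b1, b2⟩⟩ _ ⟨e1, e2⟩
    simp only at e1 e2
    omega

/-- the maximum over the carries -/
def Mc (i j : Fin 3) (x y : ℕ) : ℕ :=
  max (max (cn i j 0 0 x y) (cn i j 0 1 x y)) (max (cn i j 1 0 x y) (cn i j 1 1 x y))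

/-- the cost -/
def cf (x y : ℕ) : ℕ :=
  2 * Mc 0 0 x y + 2 * Mc 2 2 x y + 4 * Mc 0 1 x y + 4 * Mc 1 2 x y + max (2 * Mc 1 1 x y) (4 * Mc 0 2 x y)

theorem cost_eq (x y : ℕ) (hy : y < 32) : cost DD (x, y) = cf x y := by
  unfold cost cf MM Mc
  simp only [rr_eq _ _ _ _ (show (x, y).2 < 32 from hy)]

theorem rr_zero (i j : Fin 3) (c g : ℕ × ℕ) (hc : c.2 < 2) (hg : 18 ≤ g.2) : rr DD i j c g = 0 := by
  unfold rr
  rw [Finset.card_eq_zero, Finset.filter_eq_empty_iff]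
  rintro ⟨a, b⟩ h ⟨_, e2⟩
  rw [mem_product] at h
  have h1 := (Dl_lt i a (List.mem_toFinset.1 h.1)).2
  have h2 := (Dl_lt j b (List.mem_toFinset.1 h.2)).2
  simp only at e2
  omega

theorem cost_zero (g : ℕ × ℕ) (hg : 18 ≤ g.2) : cost DD g = 0 := by
  unfold cost MM
  simp only [rr_zero _ _ _ _ (show ((0 : ℕ), (0 : ℕ)).2 < 2 by decide) hg,
    rr_zero _ _ _ _ (show ((0 : ℕ), (1 : ℕ)).2 < 2 by decide) hg,
    rr_zero _ _ _ _ (show ((1 : ℕ), (0 : ℕ)).2 < 2 by decide) hg,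
    rr_zero _ _ _ _ (show ((1 : ℕ), (1 : ℕ)).2 < 2 by decide) hg]
  simp

/-- the table of the costs -/
def tab : List (List ℕ) :=
  [[0, 0, 2, 2, 0, 0, 0, 0, 0, 0, 0, 0, 0, 0, 0, 0, 0, 0],
  [0, 0, 4, 4, 0, 0, 0, 0, 0, 0, 0, 0, 0, 0, 0, 0, 0, 0],
  [0, 0, 10, 10, 4, 4, 4, 0, 0, 0, 0, 0, 0, 0, 0, 0, 0, 0],
  [0, 4, 12, 12, 4, 8, 8, 0, 0, 0, 0, 0, 0, 0, 0, 0, 0, 0],
  [0, 8, 22, 18, 14, 16, 16, 6, 4, 4, 0, 0, 0, 0, 0, 0, 0, 0],
  [0, 16, 28, 20, 14, 20, 20, 6, 4, 4, 0, 0, 0, 0, 0, 0, 0, 0],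
  [2, 16, 34, 34, 36, 44, 36, 20, 20, 20, 12, 8, 4, 0, 0, 0, 0, 0],
  [4, 20, 36, 40, 36, 44, 36, 24, 24, 20, 12, 8, 4, 0, 0, 0, 0, 0],
  [6, 22, 40, 46, 46, 52, 50, 34, 30, 26, 16, 14, 12, 6, 4, 2, 0, 0],
  [6, 22, 40, 46, 46, 52, 50, 34, 30, 26, 16, 14, 12, 6, 4, 2, 0, 0],
  [4, 20, 36, 40, 36, 44, 36, 24, 24, 20, 12, 8, 4, 0, 0, 0, 0, 0],
  [2, 16, 34, 34, 36, 44, 36, 20, 20, 20, 12, 8, 4, 0, 0, 0, 0, 0],
  [0, 16, 28, 20, 14, 20, 20, 6, 4, 4, 0, 0, 0, 0, 0, 0, 0, 0],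
  [0, 8, 22, 18, 14, 16, 16, 6, 4, 4, 0, 0, 0, 0, 0, 0, 0, 0],
  [0, 4, 12, 12, 4, 8, 8, 0, 0, 0, 0, 0, 0, 0, 0, 0, 0, 0],
  [0, 0, 10, 10, 4, 4, 4, 0, 0, 0, 0, 0, 0, 0, 0, 0, 0, 0],
  [0, 0, 4, 4, 0, 0, 0, 0, 0, 0, 0, 0, 0, 0, 0, 0, 0, 0],
  [0, 0, 2, 2, 0, 0, 0, 0, 0, 0, 0, 0, 0, 0, 0, 0, 0, 0]]

/-- table lookup -/
def tb (x y : ℕ) : ℕ := (tab.getD y []).getD x 0

theorem cf_le : ∀ y < 18, ∀ x < 18, cf x y ≤ tb x y := by
  decide +kernel

theorem cost_le (x y : ℕ) (hx : x < 18) : cost DD (x, y) ≤ tb x y := by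
  rcases Nat.lt_or_ge y 18 with hy | hy
  · rw [cost_eq x y (by omega)]
    exact cf_le y hy x hx
  · rw [cost_zero (x, y) hy]
    exact Nat.zero_le _

/-- the rows -/
def row (b : ℕ) : ℕ :=
  [2, 4, 10, 12, 26, 32, 54, 60, 74, 74, 70, 58, 48, 26, 16, 10, 4, 2].getD b 0

theorem row_aux : ∀ b < 19, ∀ a < 6, ∀ i0 < 4, 1 ≤ i0 →
    ∑ i ∈ range 3, (if i < i0 then tb (a + i * 6) b else if b = 0 then 0 else tb (a + i * 6) (b - 1)) ≤
      row b := by
  decide +kernel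

theorem tb_zero (x y : ℕ) (hy : 18 ≤ y) : tb x y = 0 := by
  unfold tb
  rw [List.getD_eq_default tab _ (by simpa [tab] using hy)]
  simp

theorem hrow (b a i0 : ℕ) (ha : a < 6) (hi0 : 1 ≤ i0) :
    ∑ i ∈ range 3, (if i < i0 then cost DD (a + i * 6, b)
      else if b = 0 then 0 else cost DD (a + i * 6, b - 1)) ≤ row b := by
  have h1 : ∑ i ∈ range 3, (if i < i0 then cost DD (a + i * 6, b)
      else if b = 0 then 0 else cost DD (a + i * 6, b - 1)) ≤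
      ∑ i ∈ range 3, (if i < i0 then tb (a + i * 6) b
      else if b = 0 then 0 else tb (a + i * 6) (b - 1)) := by
    apply sum_le_sum
    intro i hi
    have hi3 : i < 3 := mem_range.1 hi
    split_ifs
    · exact cost_le _ _ (by omega)
    · exact le_rfl
    · exact cost_le _ _ (by omega)
  refine h1.trans ?_
  rcases Nat.lt_or_ge b 19 with hb | hb
  · rcases Nat.lt_or_ge i0 4 with h4 | h4
    · exact row_aux b hb a ha i0 h4 hi0
    · have h5 := row_aux b hb a ha 3 (by norm_num) (by norm_num)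
      refine le_trans (le_of_eq ?_) h5
      apply sum_congr rfl
      intro i hi
      have hi3 : i < 3 := mem_range.1 hi
      rw [if_pos (by omega), if_pos hi3]
  · have h5 : ∑ i ∈ range 3, (if i < i0 then tb (a + i * 6) b
      else if b = 0 then 0 else tb (a + i * 6) (b - 1)) = 0 := by
      apply sum_eq_zero
      intro i _
      rw [tb_zero _ _ (by omega : 18 ≤ b), tb_zero _ _ (by omega : 18 ≤ b - 1)]
      simp
    rw [h5]
    exact Nat.zero_le _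

theorem win_aux : ∀ u < 6, ∀ v < 8, ∀ c1 < 2, ∀ c2 < 2,
    1 ≤ cn 1 1 c1 c2 (3 + u) (5 + v) ∧ 1 ≤ cn 0 2 c1 c2 (3 + u) (5 + v) := by
  decide +kernel

/-- the certificate -/
theorem cert : Cert 6 8 8 10 86 DD row 3 5 where
  Lx_pos := by norm_num
  Ly_pos := by norm_num
  box := by
    intro i d hd
    have h1 := Dl_lt i d (List.mem_toFinset.1 hd)
    omega
  hBx := by norm_num
  hBy := by norm_num
  hrow := hrow
  htot := by decide +kernel
  hwin := by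
    intro g1 g2 h1 h2 h3 h4 c1 hc1 c2 hc2
    have h := win_aux (g1 - 3) (by omega) (g2 - 5) (by omega) c1 hc1 c2 hc2
    rw [show 3 + (g1 - 3) = g1 by omega, show 5 + (g2 - 5) = g2 by omega] at h
    rw [rr_eq 1 1 (c1, c2) (g1, g2) (by simp only; omega),
      rr_eq 0 2 (c1, c2) (g1, g2) (by simp only; omega)]
    exact h

end Pool.Agent.RZ30
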