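import Pool.Agent.RZ30.Count

/-!
# Lifting to residues modulo `m`

`P = Lx p`, elements `x + p d.1 + P (y + p d.2)`.
-/

namespace Pool.Agent.RZ30

open Finset

/-- number of ordered pairs of elements of `A` with sum `n` -/
def sig (m : ℕ) (A : Finset (ZMod m)) (n : ZMod m) : ℕ :=
  ((A ×ˢ A).filter fun q => q.1 + q.2 = n).card

section

variable {p : ℕ} [Fact p.Prime]

/-- the integer of an element -/
def vv (K : Fin 3 → ZMod p) (P : ℕ) (i : Fin 3) (s : ZMod p × ℕ × ℕ) : ℕ :=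
  (s.1.val + p * s.2.1) + P * (yv K i s.1 + p * s.2.2)

theorem vv_add (K : Fin 3 → ZMod p) (P : ℕ) (i j : Fin 3) (q : QQ p) :
    vv K P i q.1 + vv K P j q.2 = vX q + P * vY K i j q := by
  unfold vv vX vY
  ring

/-- the set modulo `m` -/
def AA (K : Fin 3 → ZMod p) (D : Fin 3 → Finset (ℕ × ℕ)) (P m : ℕ) : Finset (ZMod m) :=
  (univ : Finset (Fin 3)).biUnion fun i =>
    ((univ : Finset (ZMod p)) ×ˢ D i).image fun s => ((vv K P i s : ℕ) : ZMod m)

/-- pairs of elements with sum `n` -/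
def TT (K : Fin 3 → ZMod p) (D : Fin 3 → Finset (ℕ × ℕ)) (P m : ℕ) (i j : Fin 3) (n : ZMod m) :
    Finset (QQ p) :=
  (BB p D i j).filter fun q => ((vX q + P * vY K i j q : ℕ) : ZMod m) = n

theorem sig_AA_le (K : Fin 3 → ZMod p) (D : Fin 3 → Finset (ℕ × ℕ)) (P m : ℕ) (n : ZMod m) :
    sig m (AA K D P m) n ≤ ∑ i, ∑ j, (TT K D P m i j n).card := by
  classical
  unfold sig
  have hsub : ((AA K D P m ×ˢ AA K D P m).filter fun q => q.1 + q.2 = n) ⊆
      (univ : Finset (Fin 3)).biUnion fun i => (univ : Finset (Fin 3)).biUnion fun j =>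
        (TT K D P m i j n).image fun q =>
          (((vv K P i q.1 : ℕ) : ZMod m), ((vv K P j q.2 : ℕ) : ZMod m)) := by
    rintro ⟨a, b⟩ hab
    obtain ⟨hab1, hab2⟩ := mem_filter.1 hab
    obtain ⟨ha, hb⟩ := mem_product.1 hab1
    obtain ⟨i, -, hi⟩ := mem_biUnion.1 ha
    obtain ⟨j, -, hj⟩ := mem_biUnion.1 hb
    obtain ⟨s, hs, hsa⟩ := mem_image.1 hi
    obtain ⟨s', hs', hsb⟩ := mem_image.1 hj
    refine mem_biUnion.2 ⟨i, mem_univ _, mem_biUnion.2 ⟨j, mem_univ _, mem_image.2 ⟨(s, s'), ?_, ?_⟩⟩⟩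
    · refine mem_filter.2 ⟨mem_BB.2 ⟨(mem_product.1 hs).2, (mem_product.1 hs').2⟩, ?_⟩
      rw [← vv_add, Nat.cast_add]
      change ((vv K P i s : ℕ) : ZMod m) + ((vv K P j s' : ℕ) : ZMod m) = n
      rw [hsa, hsb]
      exact hab2
    · exact Prod.ext hsa hsb
  refine (card_le_card hsub).trans (card_biUnion_le.trans ?_)
  refine sum_le_sum fun i _ => card_biUnion_le.trans ?_
  exact sum_le_sum fun j _ => card_image_le

/-- a representation of the integer `X + P Y` gives one modulo `m` -/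
theorem one_le_sig_AA (K : Fin 3 → ZMod p) (D : Fin 3 → Finset (ℕ × ℕ)) (P m : ℕ) (n : ZMod m)
    (X Y : ℕ) (hn : ((X + P * Y : ℕ) : ZMod m) = n) {i j : Fin 3} (h : (LL K D i j X Y).Nonempty) :
    1 ≤ sig m (AA K D P m) n := by
  classical
  obtain ⟨q, hq⟩ := h
  obtain ⟨hqB, hX, hY⟩ := mem_filter.1 hq
  obtain ⟨h1, h2⟩ := mem_BB.1 hqB
  unfold sig
  rw [Nat.one_le_iff_ne_zero, ← Nat.pos_iff_ne_zero, card_pos]
  refine ⟨(((vv K P i q.1 : ℕ) : ZMod m), ((vv K P j q.2 : ℕ) : ZMod m)), ?_⟩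
  rw [mem_filter, mem_product]
  refine ⟨⟨?_, ?_⟩, ?_⟩
  · exact mem_biUnion.2 ⟨i, mem_univ _, mem_image.2 ⟨q.1, mem_product.2 ⟨mem_univ _, h1⟩, rfl⟩⟩
  · exact mem_biUnion.2 ⟨j, mem_univ _, mem_image.2 ⟨q.2, mem_product.2 ⟨mem_univ _, h2⟩, rfl⟩⟩
  · rw [← Nat.cast_add, vv_add, hX, hY, hn]

/-- one of the two kinds of representations exists -/
theorem exists_LL {K : Fin 3 → ZMod p} (hK : Good K) (D : Fin 3 → Finset (ℕ × ℕ)) (X Y : ℕ)
    (h11 : ∀ c1 < 2, ∀ c2 < 2, 1 ≤ rr D 1 1 (c1, c2) (X / p, Y / p))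
    (h02 : ∀ c1 < 2, ∀ c2 < 2, 1 ≤ rr D 0 2 (c1, c2) (X / p, Y / p)) :
    ∃ i j, (LL K D i j X Y).Nonempty := by
  have hp0 : 0 < p := (Fact.out : p.Prime).pos
  have main : ∀ i j : Fin 3, (sols K i j (X : ZMod p) (Y : ZMod p)).Nonempty →
      (∀ c1 < 2, ∀ c2 < 2, 1 ≤ rr D i j (c1, c2) (X / p, Y / p)) →
      (LL K D i j X Y).Nonempty := by
    rintro i j ⟨x, hx⟩ hrr
    have hx1 := (mem_filter.1 hx).2
    set x' : ZMod p := (X : ZMod p) - x with hx'
    have hc1 : (x.val + x'.val) / p < 2 := carry_lt (ZMod.val_lt x) (ZMod.val_lt x')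
    have hc2 : (yv K i x + yv K j x') / p < 2 := carry_lt (ZMod.val_lt _) (ZMod.val_lt _)
    have h1 := hrr _ hc1 _ hc2
    unfold rr at h1
    rw [Nat.one_le_iff_ne_zero, ← Nat.pos_iff_ne_zero, card_pos] at h1
    obtain ⟨⟨d, d'⟩, hd⟩ := h1
    obtain ⟨hd1, hd2, hd3⟩ := mem_filter.1 hd
    obtain ⟨hd4, hd5⟩ := mem_product.1 hd1
    refine ⟨((x, d), (x', d')), mem_filter.2 ⟨mem_BB.2 ⟨hd4, hd5⟩, ?_, ?_⟩⟩
    · -- first coordinate
      have hmod : (x.val + x'.val) % p = X % p := by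
        have h2 : ((x.val + x'.val : ℕ) : ZMod p) = (X : ZMod p) := by
          rw [Nat.cast_add, ZMod.natCast_zmod_val, ZMod.natCast_zmod_val, hx']
          ring
        exact (ZMod.natCast_eq_natCast_iff _ _ _).1 h2
      change x.val + x'.val + p * (d.1 + d'.1) = X
      have hd2' : d.1 + d'.1 + (x.val + x'.val) / p = X / p := hd2
      have e1 := Nat.div_add_mod (x.val + x'.val) p
      have e2 := Nat.div_add_mod X p
      rw [hmod] at e1
      rw [← hd2'] at e2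
      calc x.val + x'.val + p * (d.1 + d'.1)
          = (p * ((x.val + x'.val) / p) + X % p) + p * (d.1 + d'.1) := by rw [e1]
        _ = p * (d.1 + d'.1 + (x.val + x'.val) / p) + X % p := by ring
        _ = X := e2
    · have hmod : (yv K i x + yv K j x') % p = Y % p := by
        have h2 : ((yv K i x + yv K j x' : ℕ) : ZMod p) = (Y : ZMod p) := by
          unfold yv
          rw [Nat.cast_add, ZMod.natCast_zmod_val, ZMod.natCast_zmod_val]
          exact hx1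
        exact (ZMod.natCast_eq_natCast_iff _ _ _).1 h2
      change yv K i x + yv K j x' + p * (d.2 + d'.2) = Y
      have hd2' : d.2 + d'.2 + (yv K i x + yv K j x') / p = Y / p := hd3
      have e1 := Nat.div_add_mod (yv K i x + yv K j x') p
      have e2 := Nat.div_add_mod Y p
      rw [hmod] at e1
      rw [← hd2'] at e2
      calc yv K i x + yv K j x' + p * (d.2 + d'.2)
          = (p * ((yv K i x + yv K j x') / p) + Y % p) + p * (d.2 + d'.2) := by rw [e1]
        _ = p * (d.2 + d'.2 + (yv K i x + yv K j x') / p) + Y % p := by ring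
        _ = Y := e2
  have hs := hK.sum (X : ZMod p) (Y : ZMod p)
  by_cases h1 : (sols K 1 1 (X : ZMod p) (Y : ZMod p)).Nonempty
  · exact ⟨1, 1, main 1 1 h1 h11⟩
  · rw [not_nonempty_iff_eq_empty] at h1
    rw [h1, card_empty, zero_add] at hs
    have h2 : (sols K 0 2 (X : ZMod p) (Y : ZMod p)).Nonempty := by
      rw [← card_pos]
      omega
    exact ⟨0, 2, main 0 2 h2 h02⟩

end

end Pool.Agent.RZ30
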