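import Pool.Agent.RZ30.Inst
import Pool.Agent.Lib.ANT.SW

/-!
# The primes

For every large `m` some prime `p` fits to `m`; so `R m` is at most `86`.
-/

namespace Pool.Agent.RZ30

open Finset Filter

theorem theta_key : ∃ C : ℝ, 0 < C ∧ ∀ y : ℝ, 3 ≤ y → |Chebyshev.theta y - y| ≤ C * y / Real.log y := by
  obtain ⟨C, hC, h⟩ := Pool.Agent.ANT.theta_ap 1 (show (0:ℝ) < 1 by norm_num)
  refine ⟨C, hC, fun y hy => ?_⟩
  have h1 := h 1 (1 : ZMod 1) isUnit_one y hy
  have h2 : ∑ p ∈ (Finset.Icc 1 ⌊y⌋₊).filter (fun p : ℕ => p.Prime ∧ (p : ZMod 1) = 1), Real.log p =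
      Chebyshev.theta y := by
    unfold Chebyshev.theta
    have : Finset.Ioc 0 ⌊y⌋₊ = Finset.Icc 1 ⌊y⌋₊ := rfl
    rw [this]
    congr 1
    refine Finset.filter_congr fun p _ => ?_
    constructor
    · rintro ⟨h, _⟩; exact h
    · intro h; exact ⟨h, Subsingleton.elim _ _⟩
  rw [h2] at h1
  simpa only [Nat.cast_one, Nat.totient_one, div_one, Real.one_rpow, mul_one, pow_one] using h1

/-- no primes in between -/
theorem theta_le_of_no_prime {x y : ℝ} (hy0 : 0 ≤ y)
    (h : ∀ p : ℕ, p.Prime → x < p → ¬ (p : ℝ) ≤ y) : Chebyshev.theta y ≤ Chebyshev.theta x := by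
  unfold Chebyshev.theta
  refine Finset.sum_le_sum_of_subset_of_nonneg ?_ ?_
  · intro p hp
    rw [mem_filter, mem_Ioc] at hp ⊢
    obtain ⟨⟨h1, h2⟩, h3⟩ := hp
    refine ⟨⟨h1, ?_⟩, h3⟩
    by_contra hcon
    push Not at hcon
    have h4 : x < p := Nat.lt_of_floor_lt hcon
    exact h p h3 h4 ((Nat.cast_le.2 h2).trans (Nat.floor_le hy0))
  · intro p hp _
    rw [mem_filter] at hp
    exact Real.log_nonneg (by exact_mod_cast hp.2.one_lt.le)

theorem ev_prime_interval : ∀ᶠ x : ℝ in atTop, ∃ p : ℕ, p.Prime ∧ x < p ∧ (p : ℝ) ≤ 201 / 200 * x := by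
  obtain ⟨C, hC, key⟩ := theta_key
  filter_upwards [Real.tendsto_log_atTop.eventually_gt_atTop (1000 * C), eventually_ge_atTop (3:ℝ)]
    with x hx hx3
  have hx0 : 0 < x := by linarith
  by_contra hcon
  push Not at hcon
  have h1 : Chebyshev.theta (201 / 200 * x) ≤ Chebyshev.theta x := by
    refine theta_le_of_no_prime (by positivity) ?_
    intro p hp hxp hle
    exact absurd hle (not_le.2 (hcon p hp hxp))
  have k1 := key x hx3
  have k2 := key (201 / 200 * x) (by linarith)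
  have hl1 : 0 < Real.log x := Real.log_pos (by linarith)
  have hl2 : Real.log x ≤ Real.log (201 / 200 * x) := Real.log_le_log hx0 (by linarith)
  have b1 : C * x / Real.log x ≤ x / 1000 := by
    rw [div_le_div_iff₀ hl1 (by norm_num)]
    nlinarith
  have b2 : C * (201 / 200 * x) / Real.log (201 / 200 * x) ≤ 201 / 200 * x / 1000 := by
    rw [div_le_div_iff₀ (by linarith) (by norm_num)]
    nlinarith
  rw [abs_le] at k1 k2
  linarith [k1.1, k1.2, k2.1, k2.2]

/-- a prime in the window gives a fit -/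
theorem fit_of {p m : ℕ} (hp : 12 ≤ p) (h1 : 2 * m < 95 * (p * p)) (h2 : 47 * (p * p) ≤ m) :
    Fit 6 8 8 p m where
  big := by omega
  hK1 := by
    have h3 : m / (6 * p) < 8 * p - 1 := by
      rw [Nat.div_lt_iff_lt_mul (by omega)]
      have h4 : (8 * p - 1) * (6 * p) = 48 * (p * p) - 6 * p := by
        rw [Nat.sub_mul]
        ring_nf
      rw [h4]
      have h5 : 12 * p ≤ p * p := Nat.mul_le_mul_right p hp
      omega
    omega
  hK2 := by
    have h6 := Nat.div_add_mod m (6 * p)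
    have h7 := Nat.mod_lt m (show 0 < 6 * p by omega)
    have h5 : 12 * p ≤ p * p := Nat.mul_le_mul_right p hp
    by_contra hcon
    push Not at hcon
    have h8 : 4 * (m / (6 * p)) + 1 ≤ 31 * p := by omega
    have h9 : 6 * p * (4 * (m / (6 * p)) + 1) ≤ 6 * p * (31 * p) := Nat.mul_le_mul_left _ h8
    have h10 : 6 * p * (4 * (m / (6 * p)) + 1) = 4 * (6 * p * (m / (6 * p))) + 6 * p := by ring
    have h11 : 6 * p * (31 * p) = 186 * (p * p) := by ring
    omega

theorem ev_fit : ∀ᶠ m : ℕ in atTop, ∃ p : ℕ, p.Prime ∧ 12 ≤ p ∧ Fit 6 8 8 p m := by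
  have ht : Tendsto (fun m : ℕ => √((m:ℝ) / (95 / 2))) atTop atTop :=
    Real.tendsto_sqrt_atTop.comp
      (Tendsto.atTop_div_const (by norm_num) tendsto_natCast_atTop_atTop)
  filter_upwards [ht.eventually ev_prime_interval, ht.eventually_ge_atTop 12] with m hm hm12
  obtain ⟨p, hp, hxp, hpx⟩ := hm
  set x : ℝ := √((m:ℝ) / (95 / 2)) with hx
  have hx2 : x * x = (m:ℝ) / (95 / 2) := Real.mul_self_sqrt (by positivity)
  have hp12 : 12 ≤ p := by
    have h1 : (12:ℝ) ≤ p := by linarith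
    exact_mod_cast h1
  refine ⟨p, hp, hp12, fit_of hp12 ?_ ?_⟩
  · have h1 : x * x < p * p := by
      apply mul_self_lt_mul_self (by linarith) hxp
    have h2 : (2:ℝ) * m < 95 * (p * p) := by linarith
    exact_mod_cast h2
  · have h1 : (p:ℝ) * p ≤ (201 / 200 * x) * (201 / 200 * x) := by
      apply mul_self_le_mul_self (by positivity) hpx
    have h2 : (201 / 200 * x) * (201 / 200 * x) = (201 / 200) * (201 / 200) * (x * x) := by ring
    have h3 : (47:ℝ) * (p * p) ≤ m := by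
      rw [h2, hx2] at h1
      have hm0 : (0:ℝ) ≤ m := Nat.cast_nonneg m
      linarith
    exact_mod_cast h3

/-- **The bound `86`.** -/
theorem ev_86 : ∀ᶠ m : ℕ in atTop, ∃ A : Finset (ZMod m), ∀ n, 1 ≤ sig m A n ∧ sig m A n ≤ 86 := by
  filter_upwards [ev_fit, eventually_ge_atTop 1] with m hm hm1
  obtain ⟨p, hp, hp12, hF⟩ := hm
  haveI : NeZero m := ⟨by omega⟩
  haveI : Fact p.Prime := ⟨hp⟩
  obtain ⟨K, hK⟩ := exists_good (p := p) (by omega)
  exact ⟨AA K DD (6 * p) m, fun n => ⟨one_le_sig cert hF (by omega) hK n,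
    sig_le cert hF (by omega) hK n⟩⟩

end Pool.Agent.RZ30
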