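import Pool.Agent.RZ30.Lift

/-!
# Neighbouring moduli

`R (m + 1) ≤ 4 R m` and `R m ≤ 4 R (m + 1) + 1`.
-/

namespace Pool.Agent.RZ30

open Finset

/-- pairs of elements of `V` whose sum is `c` modulo `m` -/
def FF (V : Finset ℕ) (m c : ℕ) : Finset (ℕ × ℕ) :=
  (V ×ˢ V).filter fun q => (q.1 + q.2) % m = c

theorem mem_FF {V : Finset ℕ} {m c : ℕ} {q : ℕ × ℕ} :
    q ∈ FF V m c ↔ q.1 ∈ V ∧ q.2 ∈ V ∧ (q.1 + q.2) % m = c := by
  unfold FF
  rw [mem_filter, mem_product, and_assoc]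

/-- from residues to numbers -/
theorem card_FF_val {m : ℕ} [NeZero m] (A : Finset (ZMod m)) {c : ℕ} (hc : c < m) :
    (FF (A.image ZMod.val) m c).card = sig m A (c : ZMod m) := by
  unfold sig
  refine Finset.card_bij (fun q _ => ((q.1 : ZMod m), (q.2 : ZMod m))) ?_ ?_ ?_
  · rintro ⟨x, y⟩ hq
    obtain ⟨hx, hy, h⟩ := mem_FF.1 hq
    obtain ⟨a, ha, rfl⟩ := mem_image.1 hx
    obtain ⟨b, hb, rfl⟩ := mem_image.1 hy
    rw [mem_filter, mem_product]
    simp only [ZMod.natCast_val, ZMod.cast_id', id_eq] at h ⊢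
    refine ⟨⟨ha, hb⟩, ?_⟩
    rw [← h, ZMod.natCast_mod]
    push_cast
    rw [ZMod.natCast_zmod_val, ZMod.natCast_zmod_val]
  · rintro ⟨x, y⟩ hq ⟨x', y'⟩ hq' h
    obtain ⟨hx, hy, -⟩ := mem_FF.1 hq
    obtain ⟨hx', hy', -⟩ := mem_FF.1 hq'
    obtain ⟨a, ha, rfl⟩ := mem_image.1 hx
    obtain ⟨b, hb, rfl⟩ := mem_image.1 hy
    obtain ⟨a', ha', rfl⟩ := mem_image.1 hx'
    obtain ⟨b', hb', rfl⟩ := mem_image.1 hy'
    simp only [ZMod.natCast_val, ZMod.cast_id', id_eq, Prod.mk.injEq] at h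
    rw [h.1, h.2]
  · rintro ⟨a, b⟩ hq
    rw [mem_filter, mem_product] at hq
    obtain ⟨⟨ha, hb⟩, h⟩ := hq
    refine ⟨(a.val, b.val), mem_FF.2 ⟨mem_image_of_mem _ ha, mem_image_of_mem _ hb, ?_⟩, ?_⟩
    · simp only at h ⊢
      rw [← ZMod.val_add, h, ZMod.val_natCast, Nat.mod_eq_of_lt hc]
    · simp only [ZMod.natCast_val, ZMod.cast_id', id_eq]

/-- from numbers to residues, upper bound -/
theorem sig_cast_le {m : ℕ} [NeZero m] (W : Finset ℕ) (n : ZMod m) :
    sig m (W.image fun x : ℕ => (x : ZMod m)) n ≤ (FF W m n.val).card := by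
  unfold sig
  refine le_trans (card_le_card ?_) (card_image_le (s := FF W m n.val)
    (f := fun q : ℕ × ℕ => ((q.1 : ZMod m), (q.2 : ZMod m))))
  rintro ⟨a, b⟩ hq
  rw [mem_filter, mem_product] at hq
  obtain ⟨⟨ha, hb⟩, h⟩ := hq
  obtain ⟨x, hx, rfl⟩ := mem_image.1 ha
  obtain ⟨y, hy, rfl⟩ := mem_image.1 hb
  refine mem_image.2 ⟨(x, y), mem_FF.2 ⟨hx, hy, ?_⟩, rfl⟩
  simp only at h ⊢
  rw [← h, ← Nat.cast_add, ZMod.val_natCast]

/-- from numbers to residues, lower bound -/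
theorem one_le_sig_cast {m : ℕ} [NeZero m] (W : Finset ℕ) (n : ZMod m)
    (h : 1 ≤ (FF W m n.val).card) : 1 ≤ sig m (W.image fun x : ℕ => (x : ZMod m)) n := by
  obtain ⟨⟨x, y⟩, hq⟩ := Finset.card_pos.1 h
  obtain ⟨hx, hy, he⟩ := mem_FF.1 hq
  unfold sig
  refine Finset.card_pos.2 ⟨((x : ZMod m), (y : ZMod m)), ?_⟩
  rw [mem_filter, mem_product]
  refine ⟨⟨mem_image_of_mem _ hx, mem_image_of_mem _ hy⟩, ?_⟩
  simp only at he ⊢
  rw [← Nat.cast_add, ← ZMod.natCast_mod, he, ZMod.natCast_zmod_val]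

/-- `r` is a possible bound for `m` -/
def Ok (m r : ℕ) : Prop := ∃ A : Finset (ZMod m), ∀ n : ZMod m, 1 ≤ sig m A n ∧ sig m A n ≤ r

theorem Ok.nat {m r : ℕ} [NeZero m] (h : Ok m r) : ∃ V : Finset ℕ, (∀ x ∈ V, x < m) ∧
    ∀ c < m, 1 ≤ (FF V m c).card ∧ (FF V m c).card ≤ r := by
  obtain ⟨A, hA⟩ := h
  refine ⟨A.image ZMod.val, ?_, fun c hc => ?_⟩
  · intro x hx
    obtain ⟨a, -, rfl⟩ := mem_image.1 hx
    exact ZMod.val_lt a
  · rw [card_FF_val A hc]
    exact hA _

theorem Ok.of_nat {m r : ℕ} [NeZero m] (W : Finset ℕ)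
    (h : ∀ c < m, 1 ≤ (FF W m c).card ∧ (FF W m c).card ≤ r) : Ok m r :=
  ⟨W.image fun x : ℕ => (x : ZMod m), fun n => ⟨one_le_sig_cast W n (h _ (ZMod.val_lt n)).1,
    (sig_cast_le W n).trans (h _ (ZMod.val_lt n)).2⟩⟩

/-- weight of a pair -/
def wt (pr : ℕ → Prop) [DecidablePred pr] (sh : ℕ → ℕ) (m c : ℕ) (q : ℕ × ℕ) : ℕ :=
  (if (q.1 + q.2) % m = c then 1 else 0) + (if pr q.2 ∧ (q.1 + sh q.2) % m = c then 1 else 0) +
    (if pr q.1 ∧ (sh q.1 + q.2) % m = c then 1 else 0) +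
    (if pr q.1 ∧ pr q.2 ∧ (sh q.1 + sh q.2) % m = c then 1 else 0)

theorem card_FF_le (V : Finset ℕ) (pr : ℕ → Prop) [DecidablePred pr] (sh : ℕ → ℕ) (m c : ℕ) :
    (FF (V ∪ (V.filter pr).image sh) m c).card ≤ ∑ q ∈ V ×ˢ V, wt pr sh m c q := by
  classical
  have hsub : FF (V ∪ (V.filter pr).image sh) m c ⊆
      (((V ×ˢ V).filter fun q => (q.1 + q.2) % m = c) ∪
        (((V ×ˢ V).filter fun q => pr q.2 ∧ (q.1 + sh q.2) % m = c).image
          fun q => (q.1, sh q.2))) ∪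
      ((((V ×ˢ V).filter fun q => pr q.1 ∧ (sh q.1 + q.2) % m = c).image
          fun q => (sh q.1, q.2)) ∪
        (((V ×ˢ V).filter fun q => pr q.1 ∧ pr q.2 ∧ (sh q.1 + sh q.2) % m = c).image
          fun q => (sh q.1, sh q.2))) := by
    rintro ⟨x, y⟩ hq
    obtain ⟨hx, hy, h⟩ := mem_FF.1 hq
    simp only at hx hy h
    rw [mem_union, mem_union, mem_union]
    rcases mem_union.1 hx with hx | hx
    · rcases mem_union.1 hy with hy | hy
      · exact Or.inl (Or.inl (mem_filter.2 ⟨mem_product.2 ⟨hx, hy⟩, h⟩))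
      · obtain ⟨b, hb, rfl⟩ := mem_image.1 hy
        obtain ⟨hb1, hb2⟩ := mem_filter.1 hb
        exact Or.inl (Or.inr (mem_image.2 ⟨(x, b), mem_filter.2 ⟨mem_product.2 ⟨hx, hb1⟩,
          hb2, h⟩, rfl⟩))
    · obtain ⟨a, ha, rfl⟩ := mem_image.1 hx
      obtain ⟨ha1, ha2⟩ := mem_filter.1 ha
      rcases mem_union.1 hy with hy | hy
      · exact Or.inr (Or.inl (mem_image.2 ⟨(a, y), mem_filter.2 ⟨mem_product.2 ⟨ha1, hy⟩,
          ha2, h⟩, rfl⟩))
      · obtain ⟨b, hb, rfl⟩ := mem_image.1 hy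
        obtain ⟨hb1, hb2⟩ := mem_filter.1 hb
        exact Or.inr (Or.inr (mem_image.2 ⟨(a, b), mem_filter.2 ⟨mem_product.2 ⟨ha1, hb1⟩,
          ha2, hb2, h⟩, rfl⟩))
  refine (card_le_card hsub).trans ?_
  refine (card_union_le _ _).trans ?_
  refine (Nat.add_le_add ((card_union_le _ _).trans (Nat.add_le_add_left card_image_le _))
    ((card_union_le _ _).trans (Nat.add_le_add card_image_le card_image_le))).trans ?_
  unfold wt
  rw [sum_add_distrib, sum_add_distrib, sum_add_distrib, card_filter, card_filter, card_filter,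
    card_filter]
  omega

theorem mod_iff {M S c : ℕ} (hS : S < 3 * M) (hc : c < M) :
    S % M = c ↔ (S = c ∨ S = c + M ∨ S = c + 2 * M) := by
  constructor
  · intro h
    have h1 := Nat.div_add_mod S M
    have h2 : S / M < 3 := by
      rw [Nat.div_lt_iff_lt_mul (by omega)]
      exact hS
    rw [h] at h1
    generalize S / M = t at h1 h2
    have h3 : t = 0 ∨ t = 1 ∨ t = 2 := by omega
    rcases h3 with rfl | rfl | rfl <;> omega
  · rintro (h | h | h)
    · rw [h, Nat.mod_eq_of_lt hc]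
    · rw [h, Nat.add_mod_right, Nat.mod_eq_of_lt hc]
    · rw [h, Nat.add_mul_mod_self_right, Nat.mod_eq_of_lt hc]

/-- sum of indicator functions -/
theorem sum_ind (V : Finset ℕ) (m c : ℕ) :
    ∑ q ∈ V ×ˢ V, (if (q.1 + q.2) % m = c then 1 else 0) = (FF V m c).card := by
  unfold FF
  rw [card_filter]

theorem up_pt {m c x y : ℕ} (hm : 2 ≤ m) (hc : c < m) (hx : x < m) (hy : y < m) :
    wt (fun z => m ≤ 2 * z + 1) (fun z => z + 1) (m + 1) c (x, y) ≤
      (if (x + y) % m = c then 1 else 0) + (if (x + y) % m = c then 1 else 0) +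
      (if (x + y) % m = (c + 1) % m then 1 else 0) +
      (if (x + y) % m = (c + m - 1) % m then 1 else 0) := by
  unfold wt
  simp only
  have hm0 : 0 < m := by omega
  have e0 : (x + y) % m = c ↔ _ := mod_iff (by omega) hc
  have e1 : (x + y) % m = (c + 1) % m ↔ _ := mod_iff (by omega) (Nat.mod_lt _ hm0)
  have e2 : (x + y) % m = (c + m - 1) % m ↔ _ := mod_iff (by omega) (Nat.mod_lt _ hm0)
  have f0 : (x + y) % (m + 1) = c ↔ _ := mod_iff (by omega) (by omega)
  have f1 : (x + (y + 1)) % (m + 1) = c ↔ _ := mod_iff (by omega) (by omega)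
  have f2 : (x + 1 + y) % (m + 1) = c ↔ _ := mod_iff (by omega) (by omega)
  have f3 : (x + 1 + (y + 1)) % (m + 1) = c ↔ _ := mod_iff (by omega) (by omega)
  have g1 : (c + 1) % m = c + 1 ∧ c + 1 < m ∨ (c + 1) % m = 0 ∧ c + 1 = m := by
    rcases Nat.lt_or_ge (c + 1) m with h | h
    · exact Or.inl ⟨Nat.mod_eq_of_lt h, h⟩
    · have h1 : c + 1 = m := by omega
      exact Or.inr ⟨by rw [h1, Nat.mod_self], h1⟩
  have g2 : (c + m - 1) % m = c - 1 ∧ 1 ≤ c ∨ (c + m - 1) % m = m - 1 ∧ c = 0 := by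
    rcases Nat.lt_or_ge 0 c with h | h
    · left
      have h1 : c + m - 1 = (c - 1) + m := by omega
      rw [h1, Nat.add_mod_right, Nat.mod_eq_of_lt (by omega)]
      exact ⟨rfl, h⟩
    · right
      have h1 : c = 0 := by omega
      subst h1
      rw [zero_add, Nat.mod_eq_of_lt (by omega)]
      exact ⟨rfl, rfl⟩
  simp only [e0, e1, e2, f0, f1, f2, f3]
  generalize (c + 1) % m = a at g1 ⊢
  generalize (c + m - 1) % m = b at g2 ⊢
  split_ifs <;> omega

theorem up_pt_top {m x y : ℕ} (hm : 2 ≤ m) (hx : x < m) (hy : y < m) :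
    wt (fun z => m ≤ 2 * z + 1) (fun z => z + 1) (m + 1) m (x, y) ≤
      (if (x + y) % m = 0 then 1 else 0) + (if (x + y) % m = m - 1 then 1 else 0) +
      (if (x + y) % m = m - 1 then 1 else 0) := by
  unfold wt
  simp only
  have hm0 : 0 < m := by omega
  have e0 : (x + y) % m = 0 ↔ _ := mod_iff (by omega) hm0
  have e1 : (x + y) % m = m - 1 ↔ _ := mod_iff (by omega) (by omega)
  have f0 : (x + y) % (m + 1) = m ↔ _ := mod_iff (by omega) (by omega)
  have f1 : (x + (y + 1)) % (m + 1) = m ↔ _ := mod_iff (by omega) (by omega)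
  have f2 : (x + 1 + y) % (m + 1) = m ↔ _ := mod_iff (by omega) (by omega)
  have f3 : (x + 1 + (y + 1)) % (m + 1) = m ↔ _ := mod_iff (by omega) (by omega)
  simp only [e0, e1, f0, f1, f2, f3]
  split_ifs <;> omega

/-- **From `m` to `m + 1`.** -/
theorem ok_up {m r : ℕ} (hm : 2 ≤ m) (h : Ok m r) : Ok (m + 1) (4 * r) := by
  classical
  have : NeZero m := ⟨by omega⟩
  obtain ⟨V, hV, hr⟩ := h.nat
  refine Ok.of_nat (V ∪ (V.filter fun z => m ≤ 2 * z + 1).image fun z => z + 1) ?_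
  intro c hc
  have hm0 : 0 < m := by omega
  constructor
  · -- lower bound
    rw [Nat.one_le_iff_ne_zero, Ne, Finset.card_eq_zero, ← Ne, ← Finset.nonempty_iff_ne_empty]
    have key : ∀ x y, x ∈ V → y ∈ V → (x + y) % m = (if c = m then m - 1 else c) →
        (FF (V ∪ (V.filter fun z => m ≤ 2 * z + 1).image fun z => z + 1) (m + 1) c).Nonempty := by
      intro x y hx hy hxy
      have hx' := hV x hx
      have hy' := hV y hy
      have hc' : (if c = m then m - 1 else c) < m := by split_ifs <;> omega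
      rw [mod_iff (by omega) hc'] at hxy
      have hmx : m ≤ 2 * x + 1 → x + 1 ∈ V ∪ (V.filter fun z => m ≤ 2 * z + 1).image fun z => z + 1 :=
        fun h => mem_union_right _ (mem_image.2 ⟨x, mem_filter.2 ⟨hx, h⟩, rfl⟩)
      have hmy : m ≤ 2 * y + 1 → y + 1 ∈ V ∪ (V.filter fun z => m ≤ 2 * z + 1).image fun z => z + 1 :=
        fun h => mem_union_right _ (mem_image.2 ⟨y, mem_filter.2 ⟨hy, h⟩, rfl⟩)
      by_cases hS : x + y = c
      · refine ⟨(x, y), mem_FF.2 ⟨mem_union_left _ hx, mem_union_left _ hy, ?_⟩⟩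
        rw [mod_iff (by omega) hc]
        exact Or.inl hS
      · have hS' : m ≤ x + y + 1 ∧ (x + y + 1 = c ∨ x + y + 1 = c + (m + 1)) := by
          split_ifs at hxy <;> omega
        by_cases hx2 : m ≤ 2 * x + 1
        · refine ⟨(x + 1, y), mem_FF.2 ⟨hmx hx2, mem_union_left _ hy, ?_⟩⟩
          rw [mod_iff (by omega) hc]
          omega
        · refine ⟨(x, y + 1), mem_FF.2 ⟨mem_union_left _ hx, hmy (by omega), ?_⟩⟩
          rw [mod_iff (by omega) hc]
          omega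
    have hc' : (if c = m then m - 1 else c) < m := by split_ifs <;> omega
    obtain ⟨⟨x, y⟩, hq⟩ := Finset.card_pos.1 (hr _ hc').1
    obtain ⟨hx, hy, he⟩ := mem_FF.1 hq
    exact key x y hx hy he
  · refine (card_FF_le V (fun z => m ≤ 2 * z + 1) (fun z => z + 1) (m + 1) c).trans ?_
    rcases Nat.lt_or_ge c m with hcm | hcm
    · refine (sum_le_sum (g := fun q : ℕ × ℕ => (if (q.1 + q.2) % m = c then 1 else 0) +
        (if (q.1 + q.2) % m = c then 1 else 0) +
        (if (q.1 + q.2) % m = (c + 1) % m then 1 else 0) +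
        (if (q.1 + q.2) % m = (c + m - 1) % m then 1 else 0)) ?_).trans ?_
      · rintro ⟨x, y⟩ hq
        rw [mem_product] at hq
        exact up_pt hm hcm (hV x hq.1) (hV y hq.2)
      · rw [sum_add_distrib, sum_add_distrib, sum_add_distrib, sum_ind, sum_ind, sum_ind]
        have h1 := (hr c hcm).2
        have h2 := (hr _ (Nat.mod_lt (c + 1) hm0)).2
        have h3 := (hr _ (Nat.mod_lt (c + m - 1) hm0)).2
        omega
    · have hcm' : c = m := by omega
      subst hcm'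
      refine (sum_le_sum (g := fun q : ℕ × ℕ => (if (q.1 + q.2) % c = 0 then 1 else 0) +
        (if (q.1 + q.2) % c = c - 1 then 1 else 0) +
        (if (q.1 + q.2) % c = c - 1 then 1 else 0)) ?_).trans ?_
      · rintro ⟨x, y⟩ hq
        rw [mem_product] at hq
        exact up_pt_top hm (hV x hq.1) (hV y hq.2)
      · rw [sum_add_distrib, sum_add_distrib, sum_ind, sum_ind]
        have h1 := (hr 0 hm0).2
        have h2 := (hr (c - 1) (by omega)).2
        omega

/-- indicator of the exceptional pairs -/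
def ex (m c : ℕ) (q : ℕ × ℕ) : ℕ :=
  (if c = 0 ∧ q = (m - 1, m - 1) then 1 else 0) + (if c = m - 2 ∧ q = (m / 2, m / 2) then 1 else 0)

theorem sum_ex_le (V : Finset ℕ) {m c : ℕ} (hm : 3 ≤ m) : ∑ q ∈ V ×ˢ V, ex m c q ≤ 1 := by
  unfold ex
  rw [sum_add_distrib]
  have h1 : ∀ (P : Prop) [Decidable P] (a : ℕ × ℕ),
      ∑ q ∈ V ×ˢ V, (if P ∧ q = a then 1 else 0) ≤ (if P then 1 else 0) := by
    intro P _ a
    by_cases hP : P
    · simp only [hP, true_and, if_true]
      rw [sum_ite_eq']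
      split_ifs <;> omega
    · simp [hP]
  refine (Nat.add_le_add (h1 _ _) (h1 _ _)).trans ?_
  split_ifs <;> omega

theorem down_pt1 {m c x y : ℕ} (hm : 9 ≤ m) (hc : c < m - 1) (hx : x < m) (hy : y < m)
    (hex1 : x + y < c + 2 * (m - 1)) (hex2 : m ≤ 2 * x → m ≤ 2 * y → c + 2 < x + y) :
    wt (fun z => m ≤ 2 * z) (fun z => z - 1) (m - 1) c (x, y) ≤
      (if (x + y) % m = c then 1 else 0) + (if (x + y) % m = c then 1 else 0) +
      (if (x + y) % m = c + 1 then 1 else 0) +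
      (if (x + y) % m = (c + m - 1) % m then 1 else 0) := by
  unfold wt
  simp only
  obtain ⟨k, rfl⟩ : ∃ k, m = k + 1 := ⟨m - 1, by omega⟩
  rw [Nat.add_sub_cancel] at hc hex1 ⊢
  have hm0 : 0 < k + 1 := by omega
  have e0 : (x + y) % (k + 1) = c ↔ _ := mod_iff (by omega) (by omega)
  have e1 : (x + y) % (k + 1) = c + 1 ↔ _ := mod_iff (by omega) (by omega)
  have e2 : (x + y) % (k + 1) = (c + (k + 1) - 1) % (k + 1) ↔ _ :=
    mod_iff (by omega) (Nat.mod_lt _ hm0)
  have f0 : (x + y) % k = c ↔ _ := mod_iff (by omega) (by omega)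
  have f1 : (x + (y - 1)) % k = c ↔ _ := mod_iff (by omega) (by omega)
  have f2 : (x - 1 + y) % k = c ↔ _ := mod_iff (by omega) (by omega)
  have f3 : (x - 1 + (y - 1)) % k = c ↔ _ := mod_iff (by omega) (by omega)
  have g2 : (c + (k + 1) - 1) % (k + 1) = c - 1 ∧ 1 ≤ c ∨
      (c + (k + 1) - 1) % (k + 1) = k ∧ c = 0 := by
    rcases Nat.lt_or_ge 0 c with h | h
    · left
      have h1 : c + (k + 1) - 1 = (c - 1) + (k + 1) := by omega
      rw [h1, Nat.add_mod_right, Nat.mod_eq_of_lt (by omega)]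
      exact ⟨rfl, h⟩
    · right
      have h1 : c = 0 := by omega
      subst h1
      rw [zero_add, Nat.mod_eq_of_lt (by omega)]
      exact ⟨rfl, rfl⟩
  simp only [e0, e1, e2, f0, f1, f2, f3]
  generalize (c + (k + 1) - 1) % (k + 1) = b at g2 ⊢
  clear e0 e1 e2 f0 f1 f2 f3
  split_ifs <;> omega

theorem down_pt {m c x y : ℕ} (hm : 9 ≤ m) (hc : c < m - 1) (hx : x < m) (hy : y < m) :
    wt (fun z => m ≤ 2 * z) (fun z => z - 1) (m - 1) c (x, y) ≤
      (if (x + y) % m = c then 1 else 0) + (if (x + y) % m = c then 1 else 0) +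
      (if (x + y) % m = c + 1 then 1 else 0) +
      (if (x + y) % m = (c + m - 1) % m then 1 else 0) + ex m c (x, y) := by
  by_cases hA : c + 2 * (m - 1) ≤ x + y
  · have h1 : c = 0 := by omega
    have h2 : x = m - 1 := by omega
    have h3 : y = m - 1 := by omega
    have hex : 1 ≤ ex m c (x, y) := by
      unfold ex
      rw [if_pos ⟨h1, by rw [h2, h3]⟩]
      exact Nat.le_add_right _ _
    have hwt : wt (fun z => m ≤ 2 * z) (fun z => z - 1) (m - 1) c (x, y) ≤ 1 := by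
      unfold wt
      simp only
      rw [if_neg (c := m ≤ 2 * y ∧ (x + (y - 1)) % (m - 1) = c) (by
          rw [mod_iff (by omega) hc]
          omega), if_neg (c := m ≤ 2 * x ∧ (x - 1 + y) % (m - 1) = c) (by
          rw [mod_iff (by omega) hc]
          omega), if_neg (c := m ≤ 2 * x ∧ m ≤ 2 * y ∧ (x - 1 + (y - 1)) % (m - 1) = c) (by
          rw [mod_iff (by omega) hc]
          omega)]
      split_ifs
      · exact le_rfl
      · exact Nat.zero_le _
    exact hwt.trans (hex.trans (Nat.le_add_left _ _))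
  · by_cases hB : m ≤ 2 * x ∧ m ≤ 2 * y ∧ x + y ≤ c + 2
    · obtain ⟨h1, h2, h3⟩ := hB
      have h4 : c = m - 2 := by omega
      have h5 : x = m / 2 := by omega
      have h6 : y = m / 2 := by omega
      have hex : 1 ≤ ex m c (x, y) := by
        unfold ex
        rw [if_pos (c := c = m - 2 ∧ (x, y) = (m / 2, m / 2)) ⟨h4, by rw [h5, h6]⟩]
        exact Nat.le_add_left _ _
      have hwt : wt (fun z => m ≤ 2 * z) (fun z => z - 1) (m - 1) c (x, y) ≤ 1 := by
        unfold wt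
        simp only
        rw [if_neg (c := m ≤ 2 * y ∧ (x + (y - 1)) % (m - 1) = c) (by
            rw [mod_iff (by omega) hc]
            omega), if_neg (c := m ≤ 2 * x ∧ (x - 1 + y) % (m - 1) = c) (by
            rw [mod_iff (by omega) hc]
            omega), if_neg (c := (x + y) % (m - 1) = c) (by
            rw [mod_iff (by omega) hc]
            omega)]
        split_ifs
        · exact le_rfl
        · exact Nat.zero_le _
      exact hwt.trans (hex.trans (Nat.le_add_left _ _))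
    · exact (down_pt1 hm hc hx hy (by omega) (by omega)).trans (Nat.le_add_right _ _)

/-- **From `m` to `m - 1`.** -/
theorem ok_down {m r : ℕ} (hm : 9 ≤ m) (h : Ok m r) : Ok (m - 1) (4 * r + 1) := by
  classical
  have : NeZero m := ⟨by omega⟩
  have : NeZero (m - 1) := ⟨by omega⟩
  obtain ⟨V, hV, hr⟩ := h.nat
  refine Ok.of_nat (V ∪ (V.filter fun z => m ≤ 2 * z).image fun z => z - 1) ?_
  intro c hc
  have hm0 : 0 < m := by omega
  constructor
  · -- lower bound
    obtain ⟨⟨x, y⟩, hq⟩ := Finset.card_pos.1 (hr c (by omega)).1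
    obtain ⟨hx, hy, hxy⟩ := mem_FF.1 hq
    refine Finset.card_pos.2 ?_
    simp only at hx hy hxy
    have hx' := hV x hx
    have hy' := hV y hy
    rw [mod_iff (by omega) (by omega)] at hxy
    have hmx : m ≤ 2 * x → x - 1 ∈ V ∪ (V.filter fun z => m ≤ 2 * z).image fun z => z - 1 :=
      fun h => mem_union_right _ (mem_image.2 ⟨x, mem_filter.2 ⟨hx, h⟩, rfl⟩)
    have hmy : m ≤ 2 * y → y - 1 ∈ V ∪ (V.filter fun z => m ≤ 2 * z).image fun z => z - 1 :=
      fun h => mem_union_right _ (mem_image.2 ⟨y, mem_filter.2 ⟨hy, h⟩, rfl⟩)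
    by_cases hS : x + y = c
    · refine ⟨(x, y), mem_FF.2 ⟨mem_union_left _ hx, mem_union_left _ hy, ?_⟩⟩
      rw [mod_iff (by omega) hc]
      exact Or.inl hS
    · by_cases hx2 : m ≤ 2 * x
      · refine ⟨(x - 1, y), mem_FF.2 ⟨hmx hx2, mem_union_left _ hy, ?_⟩⟩
        rw [mod_iff (by omega) hc]
        omega
      · refine ⟨(x, y - 1), mem_FF.2 ⟨mem_union_left _ hx, hmy (by omega), ?_⟩⟩
        rw [mod_iff (by omega) hc]
        omega
  · refine (card_FF_le V (fun z => m ≤ 2 * z) (fun z => z - 1) (m - 1) c).trans ?_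
    refine (sum_le_sum (g := fun q : ℕ × ℕ => (if (q.1 + q.2) % m = c then 1 else 0) +
      (if (q.1 + q.2) % m = c then 1 else 0) +
      (if (q.1 + q.2) % m = c + 1 then 1 else 0) +
      (if (q.1 + q.2) % m = (c + m - 1) % m then 1 else 0) + ex m c q) ?_).trans ?_
    · rintro ⟨x, y⟩ hq
      rw [mem_product] at hq
      exact down_pt hm hc (hV x hq.1) (hV y hq.2)
    · rw [sum_add_distrib, sum_add_distrib, sum_add_distrib, sum_add_distrib, sum_ind, sum_ind,
        sum_ind]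
      have h1 := (hr c (by omega)).2
      have h2 := (hr (c + 1) (by omega)).2
      have h3 := (hr _ (Nat.mod_lt (c + m - 1) hm0)).2
      have h4 := sum_ex_le V (c := c) (show 3 ≤ m by omega)
      omega

end Pool.Agent.RZ30
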