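import Pool.Agent.RZ30.Lift

/-!
# Upper and lower bounds for the number of representations
-/

namespace Pool.Agent.RZ30

open Finset

/-- the finite certificate -/
structure Cert (Lx Ly Bx By U : ℕ) (D : Fin 3 → Finset (ℕ × ℕ)) (row : ℕ → ℕ) (x0 y0 : ℕ) :
    Prop where
  Lx_pos : 0 < Lx
  Ly_pos : 0 < Ly
  box : ∀ i, ∀ d ∈ D i, d.1 < Bx ∧ d.2 < By
  hBx : 2 * Bx ≤ 3 * Lx
  hBy : 2 * By + 1 ≤ 3 * Ly
  hrow : ∀ b a i0, a < Lx → 1 ≤ i0 →
    ∑ i ∈ range 3, (if i < i0 then cost D (a + i * Lx, b)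
      else if b = 0 then 0 else cost D (a + i * Lx, b - 1)) ≤ row b
  htot : ∀ b, b < Ly → row b + row (b + Ly) + row (b + 2 * Ly) ≤ U ∧
    row b + row (b + Ly) + row (b + 2 * Ly - 1) ≤ U ∧
    row b + row (b + Ly - 1) + row (b + 2 * Ly - 1) ≤ U
  hwin : ∀ g1 g2, x0 ≤ g1 → g1 < x0 + Lx → y0 ≤ g2 → g2 < y0 + Ly → ∀ c1 < 2, ∀ c2 < 2,
    1 ≤ rr D 1 1 (c1, c2) (g1, g2) ∧ 1 ≤ rr D 0 2 (c1, c2) (g1, g2)

/-- the modulus `m` fits to the prime `p` -/
structure Fit (Lx Ly Bx p m : ℕ) : Prop where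
  big : 8 * Bx ≤ Lx * p
  hK1 : m / (Lx * p) + 2 ≤ Ly * p
  hK2 : 4 * (Ly * p) ≤ 4 * (m / (Lx * p)) + p

theorem patterns {p Ly Y0 Y1 Y2 s0 b0 d1 d2 : ℕ} (hLy : 0 < Ly) (h0 : Y0 = b0 * p + s0)
    (hs : s0 < p) (h1 : Y0 + Ly * p = Y1 + d1) (h2 : Y1 + Ly * p = Y2 + d2) (hd1 : 4 * d1 ≤ p)
    (hd2 : 4 * d2 ≤ p) :
    (Y1 / p = b0 + Ly ∧ Y2 / p = b0 + 2 * Ly) ∨ (Y1 / p = b0 + Ly ∧ Y2 / p = b0 + 2 * Ly - 1) ∨
      (Y1 / p = b0 + Ly - 1 ∧ Y2 / p = b0 + 2 * Ly - 1) := by
  obtain ⟨L, rfl⟩ : ∃ L, Ly = L + 1 := ⟨Ly - 1, by omega⟩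
  have e1 : b0 + (L + 1) - 1 = b0 + L := by omega
  have e2 : b0 + 2 * (L + 1) - 1 = b0 + 2 * L + 1 := by omega
  rw [e1, e2]
  have hY1 : Y1 + d1 = (b0 + L) * p + p + s0 := by
    rw [← h1, h0]
    ring
  have hY2 : Y2 + d1 + d2 = (b0 + 2 * L + 1) * p + p + s0 := by
    have : Y2 + d1 + d2 = Y1 + d1 + (L + 1) * p := by omega
    rw [this, hY1]
    ring
  have f1 : (b0 + (L + 1)) * p = (b0 + L) * p + p := by ring
  have f2 : (b0 + (L + 1) + 1) * p = (b0 + L) * p + p + p := by ring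
  have f3 : (b0 + 2 * (L + 1)) * p = (b0 + 2 * L + 1) * p + p := by ring
  have f4 : (b0 + 2 * (L + 1) + 1) * p = (b0 + 2 * L + 1) * p + p + p := by ring
  have f5 : (b0 + L + 1) * p = (b0 + L) * p + p := by ring
  have f6 : (b0 + 2 * L + 1 + 1) * p = (b0 + 2 * L + 1) * p + p := by ring
  by_cases hc1 : d1 ≤ s0
  · have g1 : Y1 / p = b0 + (L + 1) := by
      apply Nat.div_eq_of_lt_le
      · rw [f1]; omega
      · rw [f2]; omega
    by_cases hc2 : d1 + d2 ≤ s0
    · left
      refine ⟨g1, ?_⟩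
      apply Nat.div_eq_of_lt_le
      · rw [f3]; omega
      · rw [f4]; omega
    · right; left
      refine ⟨g1, ?_⟩
      apply Nat.div_eq_of_lt_le
      · omega
      · rw [f6]; omega
  · right; right
    constructor
    · apply Nat.div_eq_of_lt_le
      · omega
      · rw [f5]; omega
    · apply Nat.div_eq_of_lt_le
      · omega
      · rw [f6]; omega

/-- consecutive lifts -/
theorem step_div {P m N : ℕ} (hP : 0 < P) :
    N / P + m / P ≤ (N + m) / P ∧ (N + m) / P ≤ N / P + m / P + 1 := by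
  have e1 := Nat.div_add_mod N P
  have e2 := Nat.div_add_mod m P
  have l1 := Nat.mod_lt N hP
  have l2 := Nat.mod_lt m hP
  constructor
  · rw [Nat.le_div_iff_mul_le hP]
    calc (N / P + m / P) * P = P * (N / P) + P * (m / P) := by ring
      _ ≤ N + m := by omega
  · rw [← Nat.lt_succ_iff, Nat.div_lt_iff_lt_mul hP]
    calc N + m < P * (N / P) + P * (m / P) + 2 * P := by omega
      _ = (N / P + m / P + 1).succ * P := by
        rw [Nat.succ_eq_add_one]
        ring

section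

variable {p : ℕ} [Fact p.Prime]

/-- The sum over the lifts. -/
theorem card_TT_le {Lx Ly Bx By U : ℕ} {D : Fin 3 → Finset (ℕ × ℕ)} {row : ℕ → ℕ} {x0 y0 : ℕ}
    (hC : Cert Lx Ly Bx By U D row x0 y0) {m : ℕ} [NeZero m] (hF : Fit Lx Ly Bx p m)
    (K : Fin 3 → ZMod p) (i j : Fin 3) (n : ZMod m) :
    (TT K D (Lx * p) m i j n).card ≤ ∑ a ∈ range 3, ∑ b ∈ range 3,
      if b ≤ (n.val + a * m) / (Lx * p) then
        (LL K D i j ((n.val + a * m) % (Lx * p) + b * (Lx * p))
          ((n.val + a * m) / (Lx * p) - b)).card else 0 := by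
  classical
  have hp0 : 0 < p := (Fact.out : p.Prime).pos
  set P : ℕ := Lx * p with hP
  have hP0 : 0 < P := Nat.mul_pos hC.Lx_pos hp0
  have hm0 : 0 < m := Nat.pos_of_ne_zero (NeZero.ne m)
  have hsub : TT K D P m i j n ⊆ (range 3).biUnion fun a => (range 3).biUnion fun b =>
      if b ≤ (n.val + a * m) / P then
        LL K D i j ((n.val + a * m) % P + b * P) ((n.val + a * m) / P - b) else ∅ := by
    intro q hq
    obtain ⟨hqB, hqn⟩ := mem_filter.1 hq
    obtain ⟨hd1, hd2⟩ := mem_BB.1 hqB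
    obtain ⟨b1x, b1y⟩ := hC.box i _ hd1
    obtain ⟨b2x, b2y⟩ := hC.box j _ hd2
    have v1 := ZMod.val_lt q.1.1
    have v2 := ZMod.val_lt q.2.1
    have v3 : yv K i q.1.1 < p := ZMod.val_lt _
    have v4 : yv K j q.2.1 < p := ZMod.val_lt _
    have hX : vX q + 2 ≤ 2 * Bx * p := by
      have h1 : q.1.2.1 + q.2.2.1 + 2 ≤ 2 * Bx := by omega
      have h2 := Nat.mul_le_mul_right p h1
      have h3 : (q.1.2.1 + q.2.2.1 + 2) * p = p * (q.1.2.1 + q.2.2.1) + p + p := by ring
      unfold vX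
      omega
    have hY : vY K i j q + 2 ≤ 2 * By * p := by
      have h1 : q.1.2.2 + q.2.2.2 + 2 ≤ 2 * By := by omega
      have h2 := Nat.mul_le_mul_right p h1
      have h3 : (q.1.2.2 + q.2.2.2 + 2) * p = p * (q.1.2.2 + q.2.2.2) + p + p := by ring
      unfold vY
      omega
    set N : ℕ := vX q + P * vY K i j q with hN
    have hNmod : N % m = n.val := by
      rw [← hqn, ZMod.val_natCast]
    have hNa : n.val + N / m * m = N := by
      rw [← hNmod, mul_comm]
      exact Nat.mod_add_div N m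
    have hN3 : N < 3 * m := by
      have k1 := Nat.div_mul_le_self m P
      have k2 := hF.hK2
      rw [← hP] at k2
      have k3 := hF.big
      rw [← hP] at k3
      -- multiply by `4`
      have m1 : P * (4 * (Ly * p)) ≤ P * (4 * (m / P) + p) := Nat.mul_le_mul_left P k2
      have m2 : P * (vY K i j q + 2) ≤ P * (2 * By * p) := Nat.mul_le_mul_left P hY
      have m3 : 8 * Bx * p ≤ P * p := Nat.mul_le_mul_right p k3
      have m4 : P * ((2 * By + 1) * p) ≤ P * (3 * Ly * p) :=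
        Nat.mul_le_mul_left P (Nat.mul_le_mul_right p hC.hBy)
      have q1 : P * (4 * (Ly * p)) = 4 * (P * (Ly * p)) := by ring
      have q2 : P * (4 * (m / P) + p) = 4 * (m / P * P) + P * p := by ring
      have q3 : P * (vY K i j q + 2) = P * vY K i j q + 2 * P := by ring
      have q4 : P * ((2 * By + 1) * p) = P * (2 * By * p) + P * p := by ring
      have q5 : P * (3 * Ly * p) = 3 * (P * (Ly * p)) := by ring
      have q6 : 8 * Bx * p = 4 * (2 * Bx * p) := by ring
      omega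
    have ha3 : N / m < 3 := by
      rw [Nat.div_lt_iff_lt_mul hm0]
      exact hN3
    have hb3 : vX q / P < 3 := by
      rw [Nat.div_lt_iff_lt_mul hP0]
      have h1 := Nat.mul_le_mul_right p hC.hBx
      have h2 : 3 * Lx * p = 3 * P := by rw [hP]; ring
      omega
    have hNP : N / P = vX q / P + vY K i j q := by
      rw [hN, Nat.add_mul_div_left _ _ hP0]
    have hNP' : N % P = vX q % P := by
      rw [hN, Nat.add_mul_mod_self_left]
    refine mem_biUnion.2 ⟨N / m, mem_range.2 ha3, mem_biUnion.2 ⟨vX q / P, mem_range.2 hb3, ?_⟩⟩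
    rw [hNa, if_pos (by rw [hNP]; exact Nat.le_add_right _ _)]
    refine mem_filter.2 ⟨hqB, ?_, ?_⟩
    · rw [hNP', mul_comm]
      exact (Nat.mod_add_div _ _).symm
    · rw [hNP]
      omega
  refine (card_le_card hsub).trans (card_biUnion_le.trans (sum_le_sum fun a _ => ?_))
  refine card_biUnion_le.trans (sum_le_sum fun b _ => ?_)
  split_ifs
  · exact le_rfl
  · rw [card_empty]

/-- the lifts with given multiple of `m` -/
theorem lifts_le {Lx Ly Bx By U : ℕ} {D : Fin 3 → Finset (ℕ × ℕ)} {row : ℕ → ℕ} {x0 y0 : ℕ}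
    (hC : Cert Lx Ly Bx By U D row x0 y0) {K : Fin 3 → ZMod p} (hK : Good K) (hp : 3 ≤ p)
    (N : ℕ) :
    ∑ b ∈ range 3, (if b ≤ N / (Lx * p) then
      ∑ i, ∑ j, (LL K D i j (N % (Lx * p) + b * (Lx * p)) (N / (Lx * p) - b)).card else 0) ≤
      row (N / (Lx * p) / p) := by
  have hp0 : 0 < p := by omega
  have hP0 : 0 < Lx * p := Nat.mul_pos hC.Lx_pos hp0
  set Y : ℕ := N / (Lx * p) with hY
  set X : ℕ := N % (Lx * p) with hX
  have hXlt : X < Lx * p := Nat.mod_lt _ hP0
  have ha : X / p < Lx := by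
    rw [Nat.div_lt_iff_lt_mul hp0]
    exact hXlt
  refine le_trans (sum_le_sum fun b hb => ?_) (hC.hrow (Y / p) (X / p) (Y % p + 1) ha
    (Nat.le_add_left _ _))
  have hb3 : b < 3 := mem_range.1 hb
  have hXdiv : (X + b * (Lx * p)) / p = X / p + b * Lx := by
    have h1 : X + b * (Lx * p) = X + p * (b * Lx) := by ring
    rw [h1, Nat.add_mul_div_left _ _ hp0]
  have hYdm := Nat.div_add_mod Y p
  have hYm := Nat.mod_lt Y hp0
  by_cases hcase : b < Y % p + 1
  · have hbY : b ≤ Y := by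
      have := Nat.mod_le Y p
      omega
    rw [if_pos hbY, if_pos hcase]
    refine (sum_LL_le hK D _ _).trans (le_of_eq ?_)
    have hYdiv : (Y - b) / p = Y / p := by
      apply Nat.div_eq_of_lt_le
      · have h1 : Y / p * p = p * (Y / p) := mul_comm _ _
        omega
      · have h1 : (Y / p + 1) * p = p * (Y / p) + p := by ring
        omega
    rw [hXdiv, hYdiv]
  · rw [if_neg hcase]
    by_cases hY0 : Y / p = 0
    · rw [if_pos hY0]
      have hbY : ¬ b ≤ Y := by
        rw [hY0, mul_zero, zero_add] at hYdm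
        omega
      rw [if_neg hbY]
    · rw [if_neg hY0]
      obtain ⟨t, ht⟩ : ∃ t, Y / p = t + 1 := Nat.exists_eq_succ_of_ne_zero hY0
      have e1 : p * (Y / p) = t * p + p := by rw [ht]; ring
      split_ifs with hbY
      · refine (sum_LL_le hK D _ _).trans (le_of_eq ?_)
        have hYdiv : (Y - b) / p = Y / p - 1 := by
          rw [ht, Nat.add_sub_cancel]
          apply Nat.div_eq_of_lt_le
          · omega
          · have h1 : (t + 1) * p = t * p + p := by ring
            omega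
        rw [hXdiv, hYdiv]
      · exact Nat.zero_le _

/-- **Upper bound.** -/
theorem sig_le {Lx Ly Bx By U : ℕ} {D : Fin 3 → Finset (ℕ × ℕ)} {row : ℕ → ℕ} {x0 y0 : ℕ}
    (hC : Cert Lx Ly Bx By U D row x0 y0) {m : ℕ} [NeZero m] (hF : Fit Lx Ly Bx p m) (hp : 3 ≤ p)
    {K : Fin 3 → ZMod p} (hK : Good K) (n : ZMod m) :
    sig m (AA K D (Lx * p) m) n ≤ U := by
  have hp0 : 0 < p := by omega
  have hP0 : 0 < Lx * p := Nat.mul_pos hC.Lx_pos hp0
  refine (sig_AA_le K D (Lx * p) m n).trans ?_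
  refine (sum_le_sum fun i _ => sum_le_sum fun j _ => card_TT_le hC hF K i j n).trans ?_
  have hswap : ∑ i : Fin 3, ∑ j : Fin 3, (∑ a ∈ range 3, ∑ b ∈ range 3,
      if b ≤ (n.val + a * m) / (Lx * p) then
        (LL K D i j ((n.val + a * m) % (Lx * p) + b * (Lx * p))
          ((n.val + a * m) / (Lx * p) - b)).card else 0) =
      ∑ a ∈ range 3, ∑ b ∈ range 3, if b ≤ (n.val + a * m) / (Lx * p) then
        ∑ i : Fin 3, ∑ j : Fin 3, (LL K D i j ((n.val + a * m) % (Lx * p) + b * (Lx * p))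
          ((n.val + a * m) / (Lx * p) - b)).card else 0 := by
    have h1 : ∀ i : Fin 3, ∑ j : Fin 3, (∑ a ∈ range 3, ∑ b ∈ range 3,
        if b ≤ (n.val + a * m) / (Lx * p) then
          (LL K D i j ((n.val + a * m) % (Lx * p) + b * (Lx * p))
            ((n.val + a * m) / (Lx * p) - b)).card else 0) =
        ∑ a ∈ range 3, ∑ b ∈ range 3, ∑ j : Fin 3, if b ≤ (n.val + a * m) / (Lx * p) then
          (LL K D i j ((n.val + a * m) % (Lx * p) + b * (Lx * p))
            ((n.val + a * m) / (Lx * p) - b)).card else 0 := by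
      intro i
      rw [sum_comm]
      exact sum_congr rfl fun a _ => sum_comm
    rw [sum_congr rfl fun i _ => h1 i, sum_comm]
    refine sum_congr rfl fun a _ => ?_
    rw [sum_comm]
    refine sum_congr rfl fun b _ => ?_
    split_ifs
    · rfl
    · simp
  rw [hswap]
  refine (sum_le_sum fun a _ => lifts_le hC hK hp (n.val + a * m)).trans ?_
  rw [sum_range_succ, sum_range_succ, sum_range_one]
  -- the three rows
  have hK1 := hF.hK1
  have hK2 := hF.hK2
  set P : ℕ := Lx * p with hP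
  have hn := ZMod.val_lt n
  obtain ⟨N, hN⟩ : ∃ N, N = n.val := ⟨_, rfl⟩
  rw [← hN] at hn ⊢
  rw [zero_mul, add_zero, one_mul]
  have s1 := step_div (P := P) (m := m) (N := N) hP0
  have s2 := step_div (P := P) (m := m) (N := N + m) hP0
  have e2 : N + m + m = N + 2 * m := by ring
  rw [e2] at s2
  have hY0 : N / P ≤ m / P := Nat.div_le_div_right hn.le
  have hb0 : N / P / p < Ly := by
    rw [Nat.div_lt_iff_lt_mul hp0]
    omega
  have hYdm := Nat.div_add_mod (N / P) p
  have hYm := Nat.mod_lt (N / P) hp0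
  have hpat := patterns (p := p) (Ly := Ly) (Y0 := N / P) (Y1 := (N + m) / P)
    (Y2 := (N + 2 * m) / P) (s0 := N / P % p) (b0 := N / P / p)
    (d1 := N / P + Ly * p - (N + m) / P) (d2 := (N + m) / P + Ly * p - (N + 2 * m) / P)
    hC.Ly_pos (by rw [mul_comm]; exact hYdm.symm) hYm (by omega) (by omega) (by omega) (by omega)
  obtain ⟨t1, t2, t3⟩ := hC.htot (N / P / p) hb0
  rcases hpat with ⟨h1, h2⟩ | ⟨h1, h2⟩ | ⟨h1, h2⟩
  · rw [h1, h2]
    exact t1
  · rw [h1, h2]
    exact t2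
  · rw [h1, h2]
    exact t3

/-- **Lower bound.** -/
theorem one_le_sig {Lx Ly Bx By U : ℕ} {D : Fin 3 → Finset (ℕ × ℕ)} {row : ℕ → ℕ} {x0 y0 : ℕ}
    (hC : Cert Lx Ly Bx By U D row x0 y0) {m : ℕ} [NeZero m] (hF : Fit Lx Ly Bx p m) (hp : 3 ≤ p)
    {K : Fin 3 → ZMod p} (hK : Good K) (n : ZMod m) :
    1 ≤ sig m (AA K D (Lx * p) m) n := by
  classical
  have hp0 : 0 < p := by omega
  have hP0 : 0 < Lx * p := Nat.mul_pos hC.Lx_pos hp0
  have hLx := hC.Lx_pos
  have hLy := hC.Ly_pos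
  have hK1 := hF.hK1
  have hK2 := hF.hK2
  set P : ℕ := Lx * p with hP
  have hn := ZMod.val_lt n
  let Y : ℕ → ℕ := fun a => (n.val + a * m) / P
  let xx : ℕ → ℕ := fun a => (n.val + a * m) % P / p
  have hxx : ∀ a, xx a < Lx := by
    intro a
    change (n.val + a * m) % P / p < Lx
    rw [Nat.div_lt_iff_lt_mul hp0]
    exact Nat.mod_lt _ hP0
  let I : ℕ → ℕ := fun a => (x0 + Lx - 1 - xx a) / Lx
  -- position of `xx a + I a * Lx`
  have hI : ∀ a, x0 ≤ xx a + I a * Lx ∧ xx a + I a * Lx < x0 + Lx := by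
    intro a
    have h1 := hxx a
    have h2 := Nat.div_add_mod (x0 + Lx - 1 - xx a) Lx
    have h3 := Nat.mod_lt (x0 + Lx - 1 - xx a) hLx
    have h4 : Lx * ((x0 + Lx - 1 - xx a) / Lx) = I a * Lx := mul_comm _ _
    rw [h4] at h2
    omega
  have hstepI : ∀ a a', I a ≤ I a' + 1 := by
    intro a a'
    have h1 := (hI a).2
    have h2 := (hI a').1
    have h3 := hxx a'
    by_contra hcon
    push Not at hcon
    have h4 : (I a' + 2) * Lx ≤ I a * Lx := Nat.mul_le_mul_right _ hcon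
    have h5 : (I a' + 2) * Lx = I a' * Lx + 2 * Lx := by ring
    omega
  have hstepY : ∀ a, Y (a + 1) ≤ Y a + m / P + 1 := by
    intro a
    have h1 := (step_div (P := P) (m := m) (N := n.val + a * m) hP0).2
    have h2 : n.val + a * m + m = n.val + (a + 1) * m := by ring
    rw [h2] at h1
    exact h1
  have hmono : ∀ a, a ≤ Y a := by
    intro a
    induction a with
    | zero => exact Nat.zero_le _
    | succ a ih =>
      have h1 := (step_div (P := P) (m := m) (N := n.val + a * m) hP0).1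
      have h2 : n.val + a * m + m = n.val + (a + 1) * m := by ring
      rw [h2] at h1
      have h3 : 1 ≤ m / P := by
        have h5 : p ≤ Ly * p := Nat.le_mul_of_pos_left p hLy
        omega
      change a + 1 ≤ (n.val + (a + 1) * m) / P
      have h4 : a ≤ (n.val + a * m) / P := ih
      omega
  have hex : ∃ a, y0 * p + I a ≤ Y a := by
    refine ⟨y0 * p + I 0 + 1, ?_⟩
    have h1 := hmono (y0 * p + I 0 + 1)
    have h2 := hstepI (y0 * p + I 0 + 1) 0
    omega
  let a := Nat.find hex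
  have ha : y0 * p + I a ≤ Y a := Nat.find_spec hex
  have haup : Y a < (y0 + Ly) * p + I a := by
    have e1 : (y0 + Ly) * p = y0 * p + Ly * p := by ring
    rcases Nat.eq_zero_or_pos a with h0 | hpos
    · rw [h0]
      have h1 : Y 0 ≤ m / P := by
        change (n.val + 0 * m) / P ≤ m / P
        rw [zero_mul, add_zero]
        exact Nat.div_le_div_right hn.le
      omega
    · obtain ⟨a', ha'⟩ : ∃ a', a = a' + 1 := ⟨a - 1, by omega⟩
      have hlt : a' < Nat.find hex := by
        change a' < a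
        omega
      have h1 := Nat.find_min hex hlt
      have h2 := hstepY a'
      have h3 := hstepI a' a
      rw [← ha'] at h2
      omega
  have hIa : I a ≤ Y a := by omega
  -- the representation
  obtain ⟨i, j, hij⟩ := exists_LL hK D ((n.val + a * m) % P + I a * P) (Y a - I a) (by
      intro c1 hc1 c2 hc2
      have hXdiv : ((n.val + a * m) % P + I a * P) / p = xx a + I a * Lx := by
        have h1 : (n.val + a * m) % P + I a * P = (n.val + a * m) % P + p * (I a * Lx) := by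
          rw [hP]; ring
        rw [h1, Nat.add_mul_div_left _ _ hp0]
      rw [hXdiv]
      refine (hC.hwin _ _ (hI a).1 (hI a).2 ?_ ?_ c1 hc1 c2 hc2).1
      · rw [Nat.le_div_iff_mul_le hp0]
        omega
      · rw [Nat.div_lt_iff_lt_mul hp0]
        omega) (by
      intro c1 hc1 c2 hc2
      have hXdiv : ((n.val + a * m) % P + I a * P) / p = xx a + I a * Lx := by
        have h1 : (n.val + a * m) % P + I a * P = (n.val + a * m) % P + p * (I a * Lx) := by
          rw [hP]; ring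
        rw [h1, Nat.add_mul_div_left _ _ hp0]
      rw [hXdiv]
      refine (hC.hwin _ _ (hI a).1 (hI a).2 ?_ ?_ c1 hc1 c2 hc2).2
      · rw [Nat.le_div_iff_mul_le hp0]
        omega
      · rw [Nat.div_lt_iff_lt_mul hp0]
        omega)
  refine one_le_sig_AA K D P m n _ _ ?_ hij
  have hsum : (n.val + a * m) % P + I a * P + P * (Y a - I a) = n.val + a * m := by
    have h1 := Nat.div_add_mod (n.val + a * m) P
    have h2 : P * (Y a - I a) = P * Y a - P * I a := Nat.mul_sub _ _ _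
    have h3 : P * I a ≤ P * Y a := Nat.mul_le_mul_left P hIa
    have h4 : I a * P = P * I a := mul_comm _ _
    have h5 : P * ((n.val + a * m) / P) = P * Y a := rfl
    omega
  rw [hsum]
  push_cast
  rw [ZMod.natCast_self, mul_zero, add_zero, ZMod.natCast_zmod_val]

end

end Pool.Agent.RZ30
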